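import Pool.Agent.Zk51.RI.Spec

/-!
# Automorphisms from permutations of a transcendence basis
-/

set_option autoImplicit false

namespace Pool.Agent.Zk51.RI

open Cardinal

/-- Every permutation of a transcendence basis of an algebraically closed field is induced by an
automorphism. -/
theorem exists_aut {k Ω ι : Type*} [Field k] [Field Ω] [IsAlgClosed Ω] [Algebra k Ω]
    {x : ι → Ω} (hx : IsTranscendenceBasis k x) (π : Equiv.Perm ι) :
    ∃ σ : Ω ≃ₐ[k] Ω, ∀ i, σ (x i) = x (π i) := by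
  let _ := IsAlgClosed.isAlgClosure_of_transcendence_basis x hx
  let e : Algebra.adjoin k (Set.range x) ≃ₐ[k] Algebra.adjoin k (Set.range x) :=
    hx.1.aevalEquiv.symm.trans ((MvPolynomial.renameEquiv k π).trans hx.1.aevalEquiv)
  let σ : Ω ≃+* Ω := IsAlgClosure.equivOfEquiv Ω Ω e.toRingEquiv
  have hσ : ∀ r : Algebra.adjoin k (Set.range x), σ r = e r := fun r =>
    IsAlgClosure.equivOfEquiv_algebraMap Ω Ω e.toRingEquiv r
  refine ⟨{ σ with commutes' := fun r => ?_ }, fun i => ?_⟩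
  · change σ (algebraMap k Ω r) = algebraMap k Ω r
    have h1 := hσ (algebraMap k _ r)
    rw [AlgEquiv.commutes] at h1
    exact h1
  · change σ (x i) = x (π i)
    have h1 := hσ ⟨x i, Algebra.subset_adjoin ⟨i, rfl⟩⟩
    change σ (x i) = _ at h1
    rw [h1]
    change ((hx.1.aevalEquiv (MvPolynomial.rename π (hx.1.aevalEquiv.symm
      ⟨x i, Algebra.subset_adjoin ⟨i, rfl⟩⟩))) : Ω) = _
    rw [aevalEquiv_symm_X, MvPolynomial.rename_X]
    have h2 := hx.1.algebraMap_aevalEquiv (MvPolynomial.X (π i))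
    rw [MvPolynomial.aeval_X] at h2
    exact h2

lemma algInd_extend {F E Ω ι : Type*} [Field F] [Field E] [Field Ω] [Algebra F E] [Algebra E Ω]
    [Algebra F Ω] [IsScalarTower F E Ω] [Algebra.IsAlgebraic F E] {y : ι → Ω}
    (h : AlgebraicIndependent F y) : AlgebraicIndependent E y :=
  h.extendScalars E

lemma isAlgebraic_extend {k E Ω : Type*} [Field k] [Field E] [Field Ω] [Algebra k Ω] [Algebra E Ω]
    (R : Subalgebra k Ω) (S : Subalgebra E Ω) (h : ∀ z : Ω, z ∈ R → z ∈ S) {a : Ω}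
    (ha : IsAlgebraic R a) : IsAlgebraic S a := by
  let inc : R →+* S :=
    { toFun := fun z => ⟨z, h z z.2⟩
      map_one' := rfl
      map_mul' := fun _ _ => rfl
      map_zero' := rfl
      map_add' := fun _ _ => rfl }
  let _ : Algebra R S := inc.toAlgebra
  have : IsScalarTower R S Ω := IsScalarTower.of_algebraMap_eq fun _ => rfl
  have hinj : Function.Injective (algebraMap R S) := fun a b h =>
    Subtype.ext (congrArg (fun z : S => (z : Ω)) h)
  exact ha.extendScalars hinj

lemma algInd_adjoin {k Ω ι : Type*} [Field k] [Field Ω] [Algebra k Ω]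
    (s : Set Ω) {y : ι → Ω} (h : AlgebraicIndependent (Algebra.adjoin k s) y) :
    AlgebraicIndependent (IntermediateField.adjoin k s) y := by
  open IntermediateField.algebraAdjoinAdjoin in
  exact h.extendScalars (IntermediateField.adjoin k s)

lemma algClosed_algebraicClosure (F Ω : Type*) [Field F] [Field Ω] [IsAlgClosed Ω] [Algebra F Ω] :
    IsAlgClosed (algebraicClosure F Ω) :=
  (IsAlgClosed.algebraicClosure_eq_bot_iff _ Ω).mp (algebraicClosure.algebraicClosure_eq_bot F Ω)

lemma split_aux {k F E Ω ι : Type*} [Field k] [Field F] [Field E] [Field Ω] [Algebra k Ω]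
    [Algebra F E] [Algebra E Ω] [Algebra F Ω] [IsScalarTower F E Ω] [Algebra.IsAlgebraic F E]
    {x : ι → Ω} (hx : IsTranscendenceBasis k x) (s : Set ι)
    (h2 : AlgebraicIndependent F (fun i : (sᶜ : Set ι) => x i))
    (hk : ∀ a : k, ∃ e : E, algebraMap E Ω e = algebraMap k Ω a)
    (hs : ∀ i ∈ s, ∃ e : E, algebraMap E Ω e = x i) :
    IsTranscendenceBasis E (fun i : (sᶜ : Set ι) => x i) := by
  have h4 : AlgebraicIndependent E (fun i : (sᶜ : Set ι) => x i) := algInd_extend h2
  rw [h4.isTranscendenceBasis_iff_isAlgebraic]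
  refine ⟨fun a => ?_⟩
  have h5 := hx.isAlgebraic.isAlgebraic a
  refine isAlgebraic_extend _ _ (fun z hz => ?_) h5
  induction hz using Algebra.adjoin_induction with
  | mem z hz =>
    obtain ⟨i, rfl⟩ := hz
    by_cases hi : i ∈ s
    · obtain ⟨e, he⟩ := hs i hi
      rw [← he]
      exact Subalgebra.algebraMap_mem _ e
    · exact Algebra.subset_adjoin ⟨⟨i, hi⟩, rfl⟩
  | algebraMap r =>
    obtain ⟨e, he⟩ := hk r
    rw [← he]
    exact Subalgebra.algebraMap_mem _ e
  | add a b _ _ ha hb => exact Subalgebra.add_mem _ ha hb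
  | mul a b _ _ ha hb => exact Subalgebra.mul_mem _ ha hb

/-- Splitting a transcendence basis. -/
theorem exists_split {k Ω ι : Type*} [Field k] [Field Ω] [IsAlgClosed Ω] [Algebra k Ω]
    {x : ι → Ω} (hx : IsTranscendenceBasis k x) (s : Set ι) :
    ∃ E : IntermediateField k Ω, IsAlgClosed E ∧
      IsTranscendenceBasis E (fun i : (sᶜ : Set ι) => x i) ∧
      ∀ a : Ω, IsAlgebraic (Algebra.adjoin k (x '' s)) a → a ∈ E := by
  have hFE : ∀ a : Ω, IsAlgebraic (Algebra.adjoin k (x '' s)) a →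
      a ∈ algebraicClosure (IntermediateField.adjoin k (x '' s)) Ω := by
    intro a ha
    rw [mem_algebraicClosure_iff]
    exact IntermediateField.isAlgebraic_adjoin_iff.2 ha
  have h1 : AlgebraicIndependent (Algebra.adjoin k (x '' s)) (fun i : (sᶜ : Set ι) => x i) :=
    hx.1.adjoin_of_disjoint disjoint_compl_right
  refine ⟨(algebraicClosure (IntermediateField.adjoin k (x '' s)) Ω).restrictScalars k,
    algClosed_algebraicClosure _ _, ?_, hFE⟩
  refine split_aux (F := IntermediateField.adjoin k (x '' s))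
    (E := algebraicClosure (IntermediateField.adjoin k (x '' s)) Ω) hx s (algInd_adjoin _ h1)
    (fun a => ?_) (fun i hi => ?_)
  · exact ⟨⟨algebraMap k Ω a, hFE _ (isAlgebraic_algebraMap
      (algebraMap k (Algebra.adjoin k (x '' s)) a))⟩, rfl⟩
  · have h8 : x i ∈ Algebra.adjoin k (x '' s) := Algebra.subset_adjoin ⟨i, hi, rfl⟩
    exact ⟨⟨x i, hFE _ (isAlgebraic_algebraMap (⟨x i, h8⟩ : Algebra.adjoin k (x '' s)))⟩, rfl⟩

/-- A finite set of elements of an algebraically closed field of infinite transcendence degree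
depends on finitely many elements of a suitable transcendence basis. -/
theorem exists_basis_finite {k Ω : Type*} [Field k] [Field Ω] [Algebra k Ω] (G : Finset Ω) :
    ∃ (𝓑 : Set Ω) (X : Finset 𝓑), IsTranscendenceBasis k (Subtype.val : 𝓑 → Ω) ∧
      ∀ b ∈ G, IsAlgebraic (Algebra.adjoin k (Subtype.val '' (X : Set 𝓑))) b := by
  classical
  obtain ⟨X₀, hX₀⟩ := (AlgebraicIndependent.matroid k Ω).exists_isBasis (G : Set Ω)
    (by rw [AlgebraicIndependent.matroid_e]; exact Set.subset_univ _)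
  rw [AlgebraicIndependent.matroid_isBasis_iff] at hX₀
  obtain ⟨h1, h2, h3⟩ := hX₀
  obtain ⟨𝓑, h4, h5⟩ := exists_isTranscendenceBasis_superset h1
  have hfin : X₀.Finite := G.finite_toSet.subset h2
  have hfin' : {x : 𝓑 | (x : Ω) ∈ X₀}.Finite := by
    refine Set.Finite.of_finite_image (f := Subtype.val) (hfin.subset ?_)
      Subtype.val_injective.injOn
    rintro _ ⟨x, hx, rfl⟩
    exact hx
  refine ⟨𝓑, hfin'.toFinset, h5, fun b hb => ?_⟩
  have h6 : Subtype.val '' ((hfin'.toFinset : Finset 𝓑) : Set 𝓑) = X₀ := by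
    ext z
    constructor
    · rintro ⟨x, hx, rfl⟩
      simpa using hx
    · intro hz
      exact ⟨⟨z, h4 hz⟩, by simpa using hz, rfl⟩
  rw [h6]
  exact h3 b hb

/-- Pairwise disjoint translates of a finite set under permutations of an infinite set. -/
theorem exists_perms {𝓑 : Type*} [Infinite 𝓑] (X : Finset 𝓑) :
    ∃ π : 𝓑 → Equiv.Perm 𝓑, ∀ i j, i ≠ j → Disjoint (π i '' (X : Set 𝓑)) (π j '' (X : Set 𝓑)) := by
  classical
  obtain ⟨e⟩ : Nonempty ((𝓑 × Fin X.card) ↪ 𝓑) := by
    rw [← Cardinal.le_def]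
    rw [Cardinal.mk_prod]
    simp only [Cardinal.mk_fin, Cardinal.lift_natCast, Cardinal.lift_uzero]
    refine (Cardinal.mul_le_max _ _).trans ?_
    refine max_le (max_le le_rfl ?_) (Cardinal.aleph0_le_mk 𝓑)
    exact (Cardinal.natCast_lt_aleph0).le.trans (Cardinal.aleph0_le_mk 𝓑)
  have hπ : ∀ i : 𝓑, ∃ g : Equiv.Perm 𝓑, ∀ t : Fin X.card, g (X.equivFin.symm t) = e (i, t) := by
    intro i
    have h1 := (Equiv.Perm.isMultiplyPretransitive 𝓑 X.card)
    let a : Fin X.card ↪ 𝓑 := X.equivFin.symm.toEmbedding.trans (Function.Embedding.subtype _)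
    let b : Fin X.card ↪ 𝓑 := ⟨fun t => e (i, t), fun s t h => (Prod.ext_iff.1 (e.injective h)).2⟩
    obtain ⟨g, hg⟩ := h1.exists_smul_eq a b
    refine ⟨g, fun t => ?_⟩
    have h2 := DFunLike.congr_fun hg t
    exact h2
  choose π hπ using hπ
  refine ⟨π, fun i j hij => ?_⟩
  rw [Set.disjoint_left]
  rintro _ ⟨x, hx, rfl⟩ ⟨y, hy, hxy⟩
  have h1 := hπ i (X.equivFin ⟨x, hx⟩)
  have h2 := hπ j (X.equivFin ⟨y, hy⟩)
  rw [Equiv.symm_apply_apply] at h1 h2
  have h3 : e (j, X.equivFin ⟨y, hy⟩) = e (i, X.equivFin ⟨x, hx⟩) := by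
    rw [← h1, ← h2]
    exact hxy
  exact hij ((Prod.ext_iff.1 (e.injective h3)).1).symm

end Pool.Agent.Zk51.RI
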