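import Pool.Agent.Zk51.RI.Law

/-!
# Independence of the classes in independent blocks
-/

set_option autoImplicit false

namespace Pool.Agent.Zk51.RI

open CategoryTheory Cardinal

universe u

lemma isAlgebraic_hom {k K Ω : Type*} [Field k] [Field K] [Field Ω] [Algebra k K] [Algebra k Ω]
    (τ : K →ₐ[k] Ω) {s : Set K} {t : Set Ω} (h : ∀ x ∈ s, τ x ∈ t) {b : K}
    (hb : IsAlgebraic (Algebra.adjoin k s) b) : IsAlgebraic (Algebra.adjoin k t) (τ b) := by
  have h1 : ∀ x ∈ Algebra.adjoin k s, τ x ∈ Algebra.adjoin k t := by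
    intro x hx
    induction hx using Algebra.adjoin_induction with
    | mem x hx => exact Algebra.subset_adjoin (h x hx)
    | algebraMap r =>
      rw [AlgHom.commutes]
      exact Subalgebra.algebraMap_mem _ r
    | add a b _ _ ha hb => rw [map_add]; exact Subalgebra.add_mem _ ha hb
    | mul a b _ _ ha hb => rw [map_mul]; exact Subalgebra.mul_mem _ ha hb
  let f : Algebra.adjoin k s →+* Algebra.adjoin k t :=
    { toFun := fun x => ⟨τ x, h1 x x.2⟩
      map_one' := Subtype.ext (map_one τ)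
      map_mul' := fun x y => Subtype.ext (map_mul τ (x : K) (y : K))
      map_zero' := Subtype.ext (map_zero τ)
      map_add' := fun x y => Subtype.ext (map_add τ (x : K) (y : K)) }
  refine hb.ringHom_of_comp_eq f (τ : K →+* Ω) (fun x y hxy => ?_) ?_
  · exact Subtype.ext (τ.toRingHom.injective (congrArg Subtype.val hxy))
  · ext x
    rfl

section

variable {k : Type u} [Field k] [IsAlgClosed k] {Q : Type u} [Field Q]
  {H : CommAlgCat.{u} k ⥤ ModuleCat.{u} Q}

/-- Injectivity for extensions of an algebraically closed field. -/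
theorem hmap_injective_of_isAlgClosed (hH : IsCont H) {K Ω : Type u} [Field K] [IsAlgClosed K]
    [Field Ω] [Algebra k K] [Algebra k Ω] (σ : K →ₐ[k] Ω) : Function.Injective (hmap H σ) := by
  classical
  rw [injective_iff_map_eq_zero]
  intro a ha
  obtain ⟨A, a₀, hA, ha₀⟩ := hH.exists_fg K a
  obtain ⟨G, hG⟩ := hA
  let GS : Finset Ω := G.image σ
  have hAS : ∀ x : A, σ x ∈ Algebra.adjoin k (GS : Set Ω) := by
    rintro ⟨x, hx⟩
    change σ x ∈ _
    rw [← hG] at hx
    induction hx using Algebra.adjoin_induction with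
    | mem x hx =>
      refine Algebra.subset_adjoin ?_
      exact Finset.mem_coe.2 (Finset.mem_image_of_mem _ hx)
    | algebraMap r =>
      rw [AlgHom.commutes]
      exact Subalgebra.algebraMap_mem _ r
    | add a b _ _ ha hb => rw [map_add]; exact Subalgebra.add_mem _ ha hb
    | mul a b _ _ ha hb => rw [map_mul]; exact Subalgebra.mul_mem _ ha hb
  let f : A →ₐ[k] Algebra.adjoin k (GS : Set Ω) := (σ.comp A.val).codRestrict _ hAS
  have h1 : (H.map (CommAlgCat.ofHom (Algebra.adjoin k (GS : Set Ω)).val)).hom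
      (hmap H f a₀) = 0 := by
    rw [← ha, ← ha₀]
    change hmap H _ (hmap H f a₀) = hmap H σ (hmap H A.val a₀)
    rw [← hmap_comp, ← hmap_comp]
    rfl
  obtain ⟨T, hST, ⟨GT, hGT⟩, hT⟩ := hH.exists_le Ω _ _ ⟨GS, rfl⟩ h1
  let _ : Algebra K Ω := σ.toRingHom.toAlgebra
  have htow : IsScalarTower k K Ω := IsScalarTower.of_algebraMap_eq fun x => (σ.commutes x).symm
  obtain ⟨ι, y, hy⟩ := exists_isTranscendenceBasis' K Ω
  obtain ⟨N, φ, hN⟩ := exists_specialization (k := k) (E := K) y hy GT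
  have hTN : T ≤ N.restrictScalars k := by
    rw [← hGT]
    refine Algebra.adjoin_le fun b hb => ?_
    exact (hN b hb).1
  let χ : T →ₐ[k] K := (φ.restrictScalars k).comp (Subalgebra.inclusion hTN)
  have h2 := congrArg (hmap H χ) hT
  change hmap H χ (hmap H (Subalgebra.inclusion hST) (hmap H f a₀)) = hmap H χ 0 at h2
  rw [map_zero, ← hmap_comp, ← hmap_comp] at h2
  rw [← ha₀, ← h2]
  change hmap H A.val a₀ = _
  refine congrArg (fun g => hmap H g a₀) (AlgHom.ext fun x => ?_)
  change (x : K) = φ ⟨σ x, _⟩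
  exact (φ.commutes (x : K)).symm

/-- **The law for independent blocks.** If a class over an algebraically closed field `K` is not
defined over `k`, then its images under independent embeddings of `K` in `Ω` are linearly
independent modulo the classes defined over `k`. -/
theorem linearIndependent_blocks (hH : IsCont H) {K Ω : Type u} [Field K] [IsAlgClosed K]
    [Algebra k K] [Field Ω] [IsAlgClosed Ω] [Algebra k Ω] {κ : Type*} {x : κ → K}
    (hx : IsTranscendenceBasis k x) {ι : Type*} (τ : ι → K →ₐ[k] Ω)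
    (hτ : AlgebraicIndependent k (fun p : ι × κ => τ p.1 (x p.2)))
    (α : H.obj (.of k K)) (hα : α ∉ const H K) :
    LinearIndependent Q (fun i => (const H Ω).mkQ (hmap H (τ i) α)) := by
  classical
  obtain ⟨A, a, hA, ha⟩ := hH.exists_fg K α
  obtain ⟨G, hG⟩ := hA
  obtain ⟨𝓑, h𝓑₀, h𝓑⟩ := exists_isTranscendenceBasis_superset hτ.to_subtype_range
  let X : ι → Set 𝓑 := fun i => {z | ∃ j, (z : Ω) = τ i (x j)}
  have hπ : ∀ i j, i ≠ j → Disjoint (X i) (X j) := by
    intro i j hij
    rw [Set.disjoint_left]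
    rintro z ⟨p, hp⟩ ⟨q, hq⟩
    have h1 : (i, p) = (j, q) := hτ.injective (hp.symm.trans hq)
    exact hij (Prod.ext_iff.1 h1).1
  -- elements of `τ i (K)` are algebraic over the `i`-th block
  have hGi : ∀ (i : ι) (b : K), IsAlgebraic
      (Algebra.adjoin k (Subtype.val '' (X i))) (τ i b) := by
    intro i b
    refine isAlgebraic_hom (τ i) (s := Set.range x) ?_ (hx.isAlgebraic.isAlgebraic b)
    rintro _ ⟨j, rfl⟩
    exact ⟨⟨τ i (x j), h𝓑₀ ⟨(i, j), rfl⟩⟩, ⟨j, rfl⟩, rfl⟩
  rw [linearIndependent_iff']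
  intro s g hrel i₀ hi₀
  by_contra hg
  apply hα
  -- the relation
  have hrel' : ∑ i ∈ s, g i • hmap H (τ i) α ∈ const H Ω := by
    rw [← Submodule.ker_mkQ (const H Ω), LinearMap.mem_ker, map_sum]
    simpa only [map_smul] using hrel
  obtain ⟨γ, hγ⟩ := hrel'
  -- the subalgebra generated by the conjugates of `A`
  let GS : Finset Ω := s.biUnion fun i => G.image (τ i)
  let S : Subalgebra k Ω := Algebra.adjoin k GS
  have hAS : ∀ i ∈ s, ∀ x : A, τ i x ∈ S := by
    rintro i hi ⟨x, hx⟩
    change τ i x ∈ S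
    rw [← hG] at hx
    induction hx using Algebra.adjoin_induction with
    | mem x hx =>
      refine Algebra.subset_adjoin ?_
      exact Finset.mem_coe.2 (Finset.mem_biUnion.2 ⟨i, hi, Finset.mem_image_of_mem _ hx⟩)
    | algebraMap r =>
      rw [AlgHom.commutes]
      exact Subalgebra.algebraMap_mem _ r
    | add a b _ _ ha hb => rw [map_add]; exact Subalgebra.add_mem _ ha hb
    | mul a b _ _ ha hb => rw [map_mul]; exact Subalgebra.mul_mem _ ha hb
  have hf : ∀ i ∈ s, ∃ f : A →ₐ[k] S, ∀ x : A, (f x : Ω) = τ i x := fun i hi =>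
    ⟨((τ i).comp A.val).codRestrict S (hAS i hi), fun x => rfl⟩
  have hne : Nonempty (A →ₐ[k] S) := ⟨(hf i₀ hi₀).choose⟩
  choose! f hf using hf
  let e : H.obj (.of k S) := ∑ i ∈ s, g i • hmap H (f i) a - hmap H (Algebra.ofId k S) γ
  have he : (H.map (CommAlgCat.ofHom S.val)).hom e = 0 := by
    change hmap H S.val e = 0
    have h1 : ∀ i ∈ s, hmap H S.val (hmap H (f i) a) = hmap H (τ i) α := by
      intro i hi
      rw [← ha]
      change _ = hmap H (τ i) (hmap H A.val a)
      rw [← hmap_comp, ← hmap_comp]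
      congr 1
      exact congrArg (hmap H) (AlgHom.ext fun x => hf i hi x)
    have h2 : hmap H S.val (hmap H (Algebra.ofId k S) γ) = hmap H (Algebra.ofId k Ω) γ := by
      rw [← hmap_comp]
      congr 1
    rw [map_sub, map_sum, h2, hγ, sub_eq_zero]
    refine Finset.sum_congr rfl fun i hi => ?_
    rw [map_smul, h1 i hi]
  obtain ⟨T, hST, ⟨GT, hGT⟩, hT⟩ := hH.exists_le Ω S e ⟨GS, rfl⟩ he
  -- the specialization
  obtain ⟨E, hE, hy, hE'⟩ := exists_split h𝓑 (X i₀)
  obtain ⟨N, φ, hN⟩ := exists_specialization (k := k) (E := E) _ hy (GT ∪ GS)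
  have hTN : T ≤ N.restrictScalars k := by
    rw [← hGT]
    refine Algebra.adjoin_le fun b hb => ?_
    exact (hN b (Finset.mem_union_left _ hb)).1
  let χ : T →ₐ[k] Ω := ((IsScalarTower.toAlgHom k E Ω).comp (φ.restrictScalars k)).comp
    (Subalgebra.inclusion hTN)
  have hχ : ∀ (z : Ω) (hz : z ∈ T), χ ⟨z, hz⟩ = algebraMap E Ω (φ ⟨z, hTN hz⟩) := fun _ _ => rfl
  have hχT := congrArg (hmap H χ) hT
  change hmap H χ (hmap H (Subalgebra.inclusion hST) e) = hmap H χ 0 at hχT
  rw [map_zero] at hχT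
  -- the terms of the specialized relation
  have hval : ∀ (i : ι) (hi : i ∈ s) (x : A), (χ.comp (Subalgebra.inclusion hST)).comp (f i) x =
      algebraMap E Ω (φ ⟨τ i x, hTN (hST (hAS i hi x))⟩) := by
    intro i hi x
    change χ ⟨f i x, hST (f i x).2⟩ = _
    rw [hχ]
    congr 2
    exact Subtype.ext (hf i hi x)
  have hmain : hmap H ((χ.comp (Subalgebra.inclusion hST)).comp (f i₀)) a =
      hmap H (τ i₀) α := by
    rw [← ha]
    change _ = hmap H (τ i₀) (hmap H A.val a)
    rw [← hmap_comp]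
    congr 1
    refine congrArg (hmap H) (AlgHom.ext fun x => ?_)
    rw [hval i₀ hi₀]
    change _ = τ i₀ x
    have h1 : τ i₀ x ∈ E := by
      obtain ⟨x, hx⟩ := x
      change τ i₀ x ∈ E
      rw [← hG] at hx
      induction hx using Algebra.adjoin_induction with
      | mem x hx => exact hE' _ (hGi i₀ x)
      | algebraMap r =>
        rw [AlgHom.commutes]
        exact IntermediateField.algebraMap_mem _ r
      | add a b _ _ ha hb => rw [map_add]; exact IntermediateField.add_mem _ ha hb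
      | mul a b _ _ ha hb => rw [map_mul]; exact IntermediateField.mul_mem _ ha hb
    have h2 : (⟨τ i₀ x, hTN (hST (hAS i₀ hi₀ x))⟩ : N) = algebraMap E N ⟨τ i₀ x, h1⟩ :=
      Subtype.ext rfl
    rw [h2, AlgHom.commutes]
    rfl
  have hother : ∀ i ∈ s, i ≠ i₀ →
      hmap H ((χ.comp (Subalgebra.inclusion hST)).comp (f i)) a ∈ const H Ω := by
    intro i hi hne
    refine hmap_const_of_forall H _ (fun x => ?_) a
    have h0 : ∀ (x : K) (hx : x ∈ Algebra.adjoin k (G : Set K)) (h : τ i x ∈ N),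
        ∃ c : k, algebraMap E Ω (φ ⟨τ i x, h⟩) = algebraMap k Ω c := by
      intro x hx
      induction hx using Algebra.adjoin_induction with
      | mem x hx =>
        intro h
        obtain ⟨h', h''⟩ := hN (τ i x) (Finset.mem_union_right _
          (Finset.mem_biUnion.2 ⟨i, hi, Finset.mem_image_of_mem _ hx⟩))
        obtain ⟨c, hc⟩ := h'' (by
          refine isAlgebraic_extend _ _ (fun z hz => ?_) (hGi i x)
          refine Algebra.adjoin_mono ?_ hz
          rintro _ ⟨w, hw, rfl⟩
          exact ⟨⟨w, Set.disjoint_left.1 (hπ i i₀ hne) hw⟩, rfl⟩)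
        refine ⟨c, ?_⟩
        rw [hc]
        exact (IsScalarTower.algebraMap_apply k E Ω c).symm
      | algebraMap r =>
        intro h
        refine ⟨r, ?_⟩
        have h2 : (⟨τ i (algebraMap k K r), h⟩ : N) = algebraMap E N (algebraMap k E r) := by
          apply Subtype.ext
          change τ i (algebraMap k K r) = algebraMap E Ω (algebraMap k E r)
          rw [AlgHom.commutes]
          exact IsScalarTower.algebraMap_apply k E Ω r
        rw [h2, AlgHom.commutes]
        exact (IsScalarTower.algebraMap_apply k E Ω r).symm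
      | add a b ha hb h1 h2 =>
        intro h
        have ha' : τ i a ∈ N := hTN (hST (hAS i hi ⟨a, hG ▸ ha⟩))
        have hb' : τ i b ∈ N := hTN (hST (hAS i hi ⟨b, hG ▸ hb⟩))
        obtain ⟨c, hc⟩ := h1 ha'
        obtain ⟨d, hd⟩ := h2 hb'
        refine ⟨c + d, ?_⟩
        have h3 : (⟨τ i (a + b), h⟩ : N) = ⟨τ i a, ha'⟩ + ⟨τ i b, hb'⟩ :=
          Subtype.ext (map_add (τ i) a b)
        rw [h3, map_add, map_add, hc, hd, map_add]
      | mul a b ha hb h1 h2 =>
        intro h
        have ha' : τ i a ∈ N := hTN (hST (hAS i hi ⟨a, hG ▸ ha⟩))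
        have hb' : τ i b ∈ N := hTN (hST (hAS i hi ⟨b, hG ▸ hb⟩))
        obtain ⟨c, hc⟩ := h1 ha'
        obtain ⟨d, hd⟩ := h2 hb'
        refine ⟨c * d, ?_⟩
        have h3 : (⟨τ i (a * b), h⟩ : N) = ⟨τ i a, ha'⟩ * ⟨τ i b, hb'⟩ :=
          Subtype.ext (map_mul (τ i) a b)
        rw [h3, map_mul, map_mul, hc, hd, map_mul]
    obtain ⟨c, hc⟩ := h0 x (by rw [hG]; exact x.2) (hTN (hST (hAS i hi x)))
    exact ⟨c, by rw [hval i hi, hc]⟩
  -- conclusion
  have hsum : ∑ i ∈ s, g i • hmap H ((χ.comp (Subalgebra.inclusion hST)).comp (f i)) a ∈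
      const H Ω := by
    have h1 : ∑ i ∈ s, g i • hmap H ((χ.comp (Subalgebra.inclusion hST)).comp (f i)) a =
        hmap H χ (hmap H (Subalgebra.inclusion hST) (hmap H (Algebra.ofId k S) γ)) := by
      rw [map_sub, map_sub, sub_eq_zero, map_sum, map_sum] at hχT
      rw [← hχT]
      refine Finset.sum_congr rfl fun i hi => ?_
      rw [map_smul, map_smul, hmap_comp, hmap_comp]
    rw [h1]
    exact hmap_mem_const H _ (hmap_mem_const H _ ⟨γ, rfl⟩)
  rw [← Finset.add_sum_erase s _ hi₀, hmain] at hsum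
  have hrest : ∑ i ∈ s.erase i₀,
      g i • hmap H ((χ.comp (Subalgebra.inclusion hST)).comp (f i)) a ∈ const H Ω :=
    Submodule.sum_mem _ fun i hi => Submodule.smul_mem _ _
      (hother i (Finset.mem_of_mem_erase hi) (Finset.ne_of_mem_erase hi))
  have h1 : g i₀ • hmap H (τ i₀) α ∈ const H Ω :=
    (Submodule.add_mem_iff_left _ hrest).1 hsum
  have h2 : hmap H (τ i₀) α ∈ const H Ω := (Submodule.smul_mem_iff _ hg).1 h1
  obtain ⟨c, hc⟩ := h2
  refine ⟨c, hmap_injective_of_isAlgClosed hH (τ i₀) ?_⟩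
  rw [← hc, ← hmap_comp]
  refine congrArg (fun g => hmap H g c) (AlgHom.ext fun r => (τ i₀).commutes r)

end

end Pool.Agent.Zk51.RI
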