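import Pool.Agent.Zk51.RI.Rings

/-!
# The law for fields
-/

set_option autoImplicit false

namespace Pool.Agent.Zk51.RI

open CategoryTheory Cardinal

universe u

section

variable {Q : Type u} [Field Q] {H : CommRingCat.{u} ⥤ ModuleCat.{u} Q}

/-- The span of the conjugates of a class under all automorphisms of the ring. -/
noncomputable def orbitSpan (H : CommRingCat.{u} ⥤ ModuleCat.{u} Q) {A : Type u} [CommRing A]
    (a : H.obj (.of A)) : Submodule Q (H.obj (.of A)) :=
  Submodule.span Q (Set.range fun σ : A ≃+* A => (H.map (CommRingCat.ofHom (σ : A →+* A))).hom a)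

/-- The law for continuous functors on rings. -/
theorem trdeg_le_rank_orbitSpan (hH : IsContRing H) {k Ω : Type u} [Field k] [IsAlgClosed k]
    [Field Ω] [IsAlgClosed Ω] [Algebra k Ω] (hΩ : ℵ₀ ≤ Algebra.trdeg k Ω)
    (hk : Subsingleton (H.obj (.of k))) (α : H.obj (.of Ω)) (hα : α ≠ 0) :
    Algebra.trdeg k Ω ≤ Module.rank Q (orbitSpan H α) := by
  have h1 : (show (restr k H).obj (.of k Ω) from α) ∉ const (restr k H) Ω := by
    rintro ⟨c, hc⟩
    have hk' : Subsingleton ((restr k H).obj (.of k k)) := hk
    have h2 : c = 0 := Subsingleton.elim _ _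
    rw [h2, map_zero] at hc
    exact hα hc.symm
  obtain ⟨ι, σ, hι, hσ⟩ := exists_conjugates (isCont_restr k hH) hΩ _ h1
  have h2 : LinearIndependent Q (fun i => (hmap (restr k H) (σ i : Ω →ₐ[k] Ω)
      (show (restr k H).obj (.of k Ω) from α))) :=
    LinearIndependent.of_comp _ hσ
  have h3 : LinearIndependent Q (fun i => (⟨hmap (restr k H) (σ i : Ω →ₐ[k] Ω)
      (show (restr k H).obj (.of k Ω) from α), Submodule.subset_span ⟨(σ i).toRingEquiv, rfl⟩⟩ :
      orbitSpan H α)) :=
    LinearIndependent.of_comp (orbitSpan H α).subtype h2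
  rw [← hι]
  exact h3.cardinal_le_rank

/-- Vanishing for algebraic extensions. -/
theorem subsingleton_of_algebraic (hH : IsContRing H) {k K : Type u} [Field k] [Field K]
    [Algebra k K] [Algebra.IsAlgebraic k K]
    (h : ∀ F : IntermediateField k K, FiniteDimensional k F → Subsingleton (H.obj (.of F))) :
    Subsingleton (H.obj (.of K)) := by
  refine subsingleton_of_forall_eq 0 fun a => ?_
  obtain ⟨G, hG⟩ := exists_origin hH a
  let F : IntermediateField k K := IntermediateField.adjoin k (G : Set K)
  have hF : FiniteDimensional k F :=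
    IntermediateField.finiteDimensional_adjoin fun x _ => Algebra.IsIntegral.isIntegral x
  obtain ⟨t, ht⟩ := hG F.toSubring (IntermediateField.subset_adjoin k _)
  have h1 : Subsingleton (H.obj (.of F.toSubring)) := h F hF
  rw [← ht, Subsingleton.elim t 0, map_zero]

/-- Injectivity for algebraic extensions. -/
theorem injective_of_algebraic (hH : IsContRing H) {k K : Type u} [Field k] [Field K]
    [Algebra k K] [Algebra.IsAlgebraic k K]
    (h : ∀ F : IntermediateField k K, FiniteDimensional k F →
      Function.Injective (rmap H (algebraMap k F))) :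
    Function.Injective (rmap H (algebraMap k K)) := by
  rw [injective_iff_map_eq_zero]
  intro a ha
  obtain ⟨G, hG⟩ := exists_factor hH _ _ ha
  let F : IntermediateField k K := IntermediateField.adjoin k (G : Set K)
  have hF : FiniteDimensional k F :=
    IntermediateField.finiteDimensional_adjoin fun x _ => Algebra.IsIntegral.isIntegral x
  have h1 := hG F.toSubring (fun x => F.algebraMap_mem x) (IntermediateField.subset_adjoin k _)
  refine h F hF ?_
  rw [map_zero]
  exact h1

/-- Injectivity for extensions of an algebraically closed field. -/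
theorem injective_of_isAlgClosed (hH : IsContRing H) {k Ω : Type u} [Field k] [IsAlgClosed k]
    [Field Ω] [Algebra k Ω] : Function.Injective (rmap H (algebraMap k Ω)) := by
  rw [injective_iff_map_eq_zero]
  intro a ha
  obtain ⟨G, hG⟩ := exists_factor hH _ _ ha
  obtain ⟨ι, y, hy⟩ := exists_isTranscendenceBasis' k Ω
  obtain ⟨N, φ, hN⟩ := exists_specialization (k := k) (E := k) y hy G
  have h1 := hG N.toSubring (fun x => N.algebraMap_mem x) (fun x hx => (hN x hx).1)
  have h2 := congrArg (rmap H (φ : N →+* k)) h1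
  rw [map_zero] at h2
  have h3 : rmap H (φ : N →+* k) (rmap H (algebraMap k N) a) = a := by
    rw [← rmap_comp]
    have h4 : (φ : N →+* k).comp (algebraMap k N) = RingHom.id k :=
      RingHom.ext fun x => φ.commutes x
    rw [h4, rmap_id]
  rw [← h3]
  exact h2

/-- Embeddings of fields of smaller transcendence degree. -/
theorem exists_embedding {P F Ω : Type u} [Field P] [Field F] [Field Ω] [IsAlgClosed Ω]
    [Algebra P F] [Algebra P Ω] (h : Algebra.trdeg P F ≤ Algebra.trdeg P Ω) :
    Nonempty (F →ₐ[P] Ω) := by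
  obtain ⟨ι, x, hx⟩ := exists_isTranscendenceBasis' P F
  obtain ⟨κ, w, hw⟩ := exists_isTranscendenceBasis' P Ω
  rw [← hx.cardinalMk_eq_trdeg, ← hw.cardinalMk_eq_trdeg] at h
  obtain ⟨e⟩ := h
  let g : MvPolynomial ι P →ₐ[P] Ω := MvPolynomial.aeval (w ∘ e)
  have hg : Function.Injective g := hw.1.comp e e.injective
  let f : Algebra.adjoin P (Set.range x) →ₐ[P] Ω := g.comp hx.1.aevalEquiv.symm.toAlgHom
  have hf : Function.Injective f := hg.comp hx.1.aevalEquiv.symm.injective
  let _ : Algebra (Algebra.adjoin P (Set.range x)) Ω := f.toRingHom.toAlgebra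
  have h1 : FaithfulSMul (Algebra.adjoin P (Set.range x)) Ω :=
    (faithfulSMul_iff_algebraMap_injective _ _).2 hf
  have h2 : Algebra.IsAlgebraic (Algebra.adjoin P (Set.range x)) F := hx.isAlgebraic
  let φ : F →ₐ[Algebra.adjoin P (Set.range x)] Ω := IsAlgClosed.lift
  refine ⟨{ (φ : F →+* Ω) with commutes' := fun r => ?_ }⟩
  change φ (algebraMap P F r) = algebraMap P Ω r
  have h3 : algebraMap P F r = algebraMap (Algebra.adjoin P (Set.range x)) F
      (algebraMap P (Algebra.adjoin P (Set.range x)) r) := rfl
  rw [h3, AlgHom.commutes]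
  exact f.commutes r

/-- Vanishing over one algebraically closed field of infinite transcendence degree implies
vanishing over all fields. -/
theorem subsingleton_of_universal (hH : IsContRing H) {P Ω : Type u} [Field P] [Field Ω]
    [IsAlgClosed Ω] [Algebra P Ω] (hΩ : ℵ₀ ≤ Algebra.trdeg P Ω)
    (h0 : Subsingleton (H.obj (.of Ω)))
    (hfin : ∀ (F E : Type u) [Field F] [Field E] [Algebra F E], FiniteDimensional F E →
      Function.Injective (rmap H (algebraMap F E)))
    (F : Type u) [Field F] [Algebra P F] : Subsingleton (H.obj (.of F)) := by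
  refine subsingleton_of_forall_eq 0 fun a => ?_
  obtain ⟨G, hG⟩ := exists_origin hH a
  let F₀ : IntermediateField P F := IntermediateField.adjoin P (G : Set F)
  obtain ⟨t, ht⟩ := hG F₀.toSubring (IntermediateField.subset_adjoin P _)
  have hfg : F₀.FG := IntermediateField.fg_adjoin_of_finite G.finite_toSet
  have hess : Algebra.EssFiniteType P F₀ := IntermediateField.essFiniteType_iff.2 hfg
  have htr : Algebra.trdeg P F₀ < ℵ₀ := trdeg_lt_aleph0 P F₀
  obtain ⟨j⟩ := exists_embedding (P := P) (F := F₀) (Ω := Ω) (htr.le.trans hΩ)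
  let _ : Algebra F₀ Ω := j.toRingHom.toAlgebra
  have h1 : Function.Injective (rmap H (algebraMap F₀ (AlgebraicClosure F₀))) :=
    injective_of_algebraic hH fun F hF => hfin F₀ F hF
  let e : AlgebraicClosure F₀ →ₐ[F₀] Ω := IsAlgClosed.lift
  let _ : Algebra (AlgebraicClosure F₀) Ω := e.toRingHom.toAlgebra
  have h2 : Function.Injective (rmap H (algebraMap (AlgebraicClosure F₀) Ω)) :=
    injective_of_isAlgClosed hH
  have h3 : (show H.obj (.of F₀) from t) = 0 :=
    h1 (h2 (Subsingleton.elim _ _))
  rw [← ht]
  exact (congrArg (rmap H F₀.toSubring.subtype) h3).trans (map_zero _)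

end

end Pool.Agent.Zk51.RI
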