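import Pool.Agent.Zk51.RI.Fields
import Pool.Agent.Zk51.RI.Block

/-!
# The growth criterion
-/

set_option autoImplicit false

namespace Pool.Agent.Zk51.RI

open CategoryTheory Cardinal

universe u

/-- Embeddings with prescribed values on a transcendence basis. -/
theorem exists_embedding' {P F Ω : Type u} [Field P] [Field F] [Field Ω] [IsAlgClosed Ω]
    [Algebra P F] [Algebra P Ω] {ι : Type*} {x : ι → F} (hx : IsTranscendenceBasis P x)
    {w : ι → Ω} (hw : AlgebraicIndependent P w) : ∃ φ : F →ₐ[P] Ω, ∀ i, φ (x i) = w i := by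
  let g : MvPolynomial ι P →ₐ[P] Ω := MvPolynomial.aeval w
  have hg : Function.Injective g := hw
  let f : Algebra.adjoin P (Set.range x) →ₐ[P] Ω := g.comp hx.1.aevalEquiv.symm.toAlgHom
  have hf : Function.Injective f := hg.comp hx.1.aevalEquiv.symm.injective
  let _ : Algebra (Algebra.adjoin P (Set.range x)) Ω := f.toRingHom.toAlgebra
  have h1 : FaithfulSMul (Algebra.adjoin P (Set.range x)) Ω :=
    (faithfulSMul_iff_algebraMap_injective _ _).2 hf
  have h2 : Algebra.IsAlgebraic (Algebra.adjoin P (Set.range x)) F := hx.isAlgebraic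
  let φ : F →ₐ[Algebra.adjoin P (Set.range x)] Ω := IsAlgClosed.lift
  refine ⟨{ (φ : F →+* Ω) with commutes' := fun r => ?_ }, fun i => ?_⟩
  · change φ (algebraMap P F r) = algebraMap P Ω r
    have h3 : algebraMap P F r = algebraMap (Algebra.adjoin P (Set.range x)) F
        (algebraMap P (Algebra.adjoin P (Set.range x)) r) := rfl
    rw [h3, AlgHom.commutes]
    exact f.commutes r
  · change φ (x i) = w i
    have hi : x i ∈ Algebra.adjoin P (Set.range x) := Algebra.subset_adjoin ⟨i, rfl⟩
    have h3 : x i = algebraMap (Algebra.adjoin P (Set.range x)) F ⟨x i, hi⟩ := rfl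
    rw [h3, AlgHom.commutes]
    change g (hx.1.aevalEquiv.symm ⟨x i, hi⟩) = w i
    rw [aevalEquiv_symm_X]
    exact MvPolynomial.aeval_X w i

/-- The universal algebraically closed field of given transcendence degree. -/
theorem exists_algClosed_trdeg (P : Type u) [Field P] (ι : Type u) :
    ∃ (K : Type u) (_ : Field K) (_ : IsAlgClosed K) (_ : Algebra P K),
      Algebra.trdeg P K = #ι := by
  refine ⟨AlgebraicClosure (FractionRing (MvPolynomial ι P)), inferInstance, inferInstance,
    inferInstance, ?_⟩
  have h1 : Algebra.trdeg (MvPolynomial ι P)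
      (AlgebraicClosure (FractionRing (MvPolynomial ι P))) = 0 := by
    have h2 : Algebra.IsAlgebraic (MvPolynomial ι P)
      (AlgebraicClosure (FractionRing (MvPolynomial ι P))) :=
      (IsFractionRing.comap_isAlgebraic_iff (K := FractionRing (MvPolynomial ι P))).2 inferInstance
    exact trdeg_eq_zero
  have h3 : FaithfulSMul (MvPolynomial ι P)
      (AlgebraicClosure (FractionRing (MvPolynomial ι P))) := by
    rw [faithfulSMul_iff_algebraMap_injective, IsScalarTower.algebraMap_eq (MvPolynomial ι P)
      (FractionRing (MvPolynomial ι P)) (AlgebraicClosure (FractionRing (MvPolynomial ι P)))]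
    exact (algebraMap (FractionRing (MvPolynomial ι P)) (AlgebraicClosure
      (FractionRing (MvPolynomial ι P)))).injective.comp (IsFractionRing.injective _ _)
  rw [← trdeg_add_eq P (MvPolynomial ι P), h1, add_zero, MvPolynomial.trdeg_of_isDomain,
    Cardinal.lift_id]

section

variable {Q : Type u} [Field Q] {H : CommRingCat.{u} ⥤ ModuleCat.{u} Q}

/-- The growth law: if a class over an algebraically closed field of transcendence degree `d`
does not vanish, then the space over an algebraically closed field of transcendence degree `m d`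
has dimension at least `m`. -/
theorem le_rank (hH : IsContRing H) {k K K' : Type u} [Field k] [IsAlgClosed k]
    [Field K] [IsAlgClosed K] [Algebra k K] [Field K'] [IsAlgClosed K'] [Algebra k K']
    (hk : Subsingleton (H.obj (.of k))) {m : ℕ}
    (htr : (m : Cardinal.{u}) * Algebra.trdeg k K ≤ Algebra.trdeg k K')
    (hne : ¬ Subsingleton (H.obj (.of K))) :
    (m : Cardinal.{u}) ≤ Module.rank Q (H.obj (.of K')) := by
  obtain ⟨α, hα⟩ : ∃ α : H.obj (.of K), α ≠ 0 := by
    by_contra hcon
    push Not at hcon
    exact hne (subsingleton_of_forall_eq 0 hcon)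
  obtain ⟨κ, x, hx⟩ := exists_isTranscendenceBasis' k K
  obtain ⟨κ', w, hw⟩ := exists_isTranscendenceBasis' k K'
  rw [← hx.cardinalMk_eq_trdeg, ← hw.cardinalMk_eq_trdeg] at htr
  obtain ⟨e⟩ : Nonempty ((ULift.{u} (Fin m) × κ) ↪ κ') := by
    rw [← Cardinal.le_def]
    simpa using htr
  choose τ hτ using fun i : ULift.{u} (Fin m) => exists_embedding' (Ω := K') hx
    (hw.1.comp (fun j => e (i, j)) (fun a b hab => (Prod.ext_iff.1 (e.injective hab)).2))
  have hind : AlgebraicIndependent k (fun p : ULift.{u} (Fin m) × κ => τ p.1 (x p.2)) := by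
    have h1 : (fun p : ULift.{u} (Fin m) × κ => τ p.1 (x p.2)) = w ∘ e := by
      funext p
      exact hτ p.1 p.2
    rw [h1]
    exact hw.1.comp e e.injective
  have hα' : (show (restr k H).obj (.of k K) from α) ∉ const (restr k H) K := by
    rintro ⟨c, hc⟩
    have hk' : Subsingleton ((restr k H).obj (.of k k)) := hk
    have h2 : c = 0 := Subsingleton.elim _ _
    rw [h2, map_zero] at hc
    exact hα hc.symm
  have h1 := linearIndependent_blocks (isCont_restr k hH) hx τ hind _ hα'
  have h2 : LinearIndependent Q (fun i => (hmap (restr k H) (τ i)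
      (show (restr k H).obj (.of k K) from α))) := LinearIndependent.of_comp _ h1
  have h3 := h2.cardinal_le_rank
  have h4 : #(ULift.{u} (Fin m)) = (m : Cardinal.{u}) := by simp
  rw [← h4]
  exact h3

/-- **Criteria for the vanishing over all fields.** -/
theorem fields_tfae (hH : IsContRing H) (P : Type u) [Field P]
    (hbase : ∀ (F : Type u) [Field F] [Algebra P F], FiniteDimensional P F →
      Subsingleton (H.obj (.of F)))
    (hfin : ∀ (F E : Type u) [Field F] [Field E] [Algebra F E], FiniteDimensional F E →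
      Function.Injective (rmap H (algebraMap F E)))
    (Ω : Type u) [Field Ω] [IsAlgClosed Ω] [Algebra P Ω] (hΩ : ℵ₀ ≤ Algebra.trdeg P Ω) :
    List.TFAE
      [∀ (F : Type u) [Field F] [Algebra P F], Subsingleton (H.obj (.of F)),
        Module.rank Q (H.obj (.of Ω)) < Algebra.trdeg P Ω,
        ∀ α : H.obj (.of Ω), Module.rank Q (orbitSpan H α) < Algebra.trdeg P Ω,
        ∀ d : ℕ, ∃ m : ℕ, ∀ (K : Type u) [Field K] [IsAlgClosed K] [Algebra P K],
          Algebra.trdeg P K = ((m * d : ℕ) : Cardinal.{u}) →
          Module.rank Q (H.obj (.of K)) < (m : Cardinal.{u})] := by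
  have hk : Subsingleton (H.obj (.of (AlgebraicClosure P))) :=
    subsingleton_of_algebraic hH fun F hF => hbase F hF
  have htrk : ∀ (K : Type u) [Field K] [Algebra P K] [Algebra (AlgebraicClosure P) K]
      [IsScalarTower P (AlgebraicClosure P) K],
      Algebra.trdeg (AlgebraicClosure P) K = Algebra.trdeg P K := by
    intro K _ _ _ _
    rw [← trdeg_add_eq P (AlgebraicClosure P) (A := K), trdeg_eq_zero (R := P)
      (A := AlgebraicClosure P), zero_add]
  have h12 : (∀ (F : Type u) [Field F] [Algebra P F], Subsingleton (H.obj (.of F))) →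
      Module.rank Q (H.obj (.of Ω)) < Algebra.trdeg P Ω := by
    intro h
    have h1 := h Ω
    rw [rank_subsingleton']
    exact Cardinal.aleph0_pos.trans_le hΩ
  have h23 : Module.rank Q (H.obj (.of Ω)) < Algebra.trdeg P Ω →
      ∀ α : H.obj (.of Ω), Module.rank Q (orbitSpan H α) < Algebra.trdeg P Ω := fun h α =>
    (Submodule.rank_le _).trans_lt h
  have h31 : (∀ α : H.obj (.of Ω), Module.rank Q (orbitSpan H α) < Algebra.trdeg P Ω) →
      ∀ (F : Type u) [Field F] [Algebra P F], Subsingleton (H.obj (.of F)) := by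
    intro h F _ _
    refine subsingleton_of_universal hH hΩ ?_ hfin F
    refine subsingleton_of_forall_eq 0 fun α => ?_
    by_contra hα
    let j : AlgebraicClosure P →ₐ[P] Ω := IsAlgClosed.lift
    let _ : Algebra (AlgebraicClosure P) Ω := j.toRingHom.toAlgebra
    have htow : IsScalarTower P (AlgebraicClosure P) Ω :=
      IsScalarTower.of_algebraMap_eq fun r => (j.commutes r).symm
    have h1 := trdeg_le_rank_orbitSpan hH (k := AlgebraicClosure P) (Ω := Ω)
      (by rw [htrk Ω]; exact hΩ) hk α hα
    rw [htrk Ω] at h1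
    exact absurd (h α) (not_lt.2 h1)
  have h14 : (∀ (F : Type u) [Field F] [Algebra P F], Subsingleton (H.obj (.of F))) →
      ∀ d : ℕ, ∃ m : ℕ, ∀ (K : Type u) [Field K] [IsAlgClosed K] [Algebra P K],
          Algebra.trdeg P K = ((m * d : ℕ) : Cardinal.{u}) →
          Module.rank Q (H.obj (.of K)) < (m : Cardinal.{u}) := by
    intro h d
    refine ⟨1, fun K _ _ _ _ => ?_⟩
    have h1 := h K
    rw [rank_subsingleton']
    simp
  have h41 : (∀ d : ℕ, ∃ m : ℕ, ∀ (K : Type u) [Field K] [IsAlgClosed K] [Algebra P K],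
          Algebra.trdeg P K = ((m * d : ℕ) : Cardinal.{u}) →
          Module.rank Q (H.obj (.of K)) < (m : Cardinal.{u})) →
      ∀ (F : Type u) [Field F] [Algebra P F], Subsingleton (H.obj (.of F)) := by
    intro h F _ _
    refine subsingleton_of_forall_eq 0 fun a => ?_
    obtain ⟨G, hG⟩ := exists_origin hH a
    let F₀ : IntermediateField P F := IntermediateField.adjoin P (G : Set F)
    obtain ⟨t, ht⟩ := hG F₀.toSubring (IntermediateField.subset_adjoin P _)
    have hfg : F₀.FG := IntermediateField.fg_adjoin_of_finite G.finite_toSet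
    have hess : Algebra.EssFiniteType P F₀ := IntermediateField.essFiniteType_iff.2 hfg
    have htr : Algebra.trdeg P F₀ < ℵ₀ := trdeg_lt_aleph0 P F₀
    obtain ⟨d, hd⟩ := Cardinal.lt_aleph0.1 htr
    have h1 : Function.Injective (rmap H (algebraMap F₀ (AlgebraicClosure F₀))) :=
      injective_of_algebraic hH fun F hF => hfin F₀ F hF
    have hd' : Algebra.trdeg P (AlgebraicClosure F₀) = d := by
      rw [← hd, ← trdeg_add_eq P F₀ (A := AlgebraicClosure F₀),
        trdeg_eq_zero (R := F₀), add_zero]
    obtain ⟨m, hm⟩ := h d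
    obtain ⟨K', _, _, _, hK'⟩ := exists_algClosed_trdeg P (ULift.{u} (Fin (m * d)))
    have hK'' : Algebra.trdeg P K' = ((m * d : ℕ) : Cardinal.{u}) := by
      rw [hK']
      simp
    let j : AlgebraicClosure P →ₐ[P] AlgebraicClosure F₀ := IsAlgClosed.lift
    let _ : Algebra (AlgebraicClosure P) (AlgebraicClosure F₀) := j.toRingHom.toAlgebra
    have htow : IsScalarTower P (AlgebraicClosure P) (AlgebraicClosure F₀) :=
      IsScalarTower.of_algebraMap_eq fun r => (j.commutes r).symm
    let j' : AlgebraicClosure P →ₐ[P] K' := IsAlgClosed.lift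
    let _ : Algebra (AlgebraicClosure P) K' := j'.toRingHom.toAlgebra
    have htow' : IsScalarTower P (AlgebraicClosure P) K' :=
      IsScalarTower.of_algebraMap_eq fun r => (j'.commutes r).symm
    have hsub : Subsingleton (H.obj (.of (AlgebraicClosure F₀))) := by
      by_contra hne
      have h2 := le_rank hH (k := AlgebraicClosure P) (K := AlgebraicClosure F₀) (K' := K') hk
        (m := m) (by rw [htrk (AlgebraicClosure F₀), htrk K', hd', hK'']; push_cast; exact le_rfl)
        hne
      exact absurd (hm K' hK'') (not_lt.2 h2)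
    have h3 : (show H.obj (.of F₀) from t) = 0 := h1 (Subsingleton.elim _ _)
    rw [← ht]
    exact (congrArg (rmap H F₀.toSubring.subtype) h3).trans (map_zero _)
  tfae_have 1 → 2 := h12
  tfae_have 2 → 3 := h23
  tfae_have 3 → 1 := h31
  tfae_have 1 → 4 := h14
  tfae_have 4 → 1 := h41
  tfae_finish

end

end Pool.Agent.Zk51.RI
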