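import Pool.Agent.Zk51.RI.Aut

/-!
# The zero–or–large law for continuous functors on algebras over an algebraically closed field
-/

set_option autoImplicit false

namespace Pool.Agent.Zk51.RI

open CategoryTheory Cardinal

universe u

/-- A functor on commutative `k`-algebras is *continuous* if it commutes with the directed union of
the finitely generated subalgebras of every algebra. -/
structure IsCont {k : Type u} [Field k] {Q : Type u} [Field Q]
    (H : CommAlgCat.{u} k ⥤ ModuleCat.{u} Q) : Prop where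
  exists_fg : ∀ (A : Type u) [CommRing A] [Algebra k A] (a : H.obj (.of k A)),
    ∃ (S : Subalgebra k A) (s : H.obj (.of k S)), S.FG ∧
      (H.map (CommAlgCat.ofHom S.val)).hom s = a
  exists_le : ∀ (A : Type u) [CommRing A] [Algebra k A] (S : Subalgebra k A)
    (s : H.obj (.of k S)), S.FG → (H.map (CommAlgCat.ofHom S.val)).hom s = 0 →
    ∃ (T : Subalgebra k A) (h : S ≤ T), T.FG ∧
      (H.map (CommAlgCat.ofHom (Subalgebra.inclusion h))).hom s = 0

section

variable {k : Type u} [Field k] {Q : Type u} [Field Q] (H : CommAlgCat.{u} k ⥤ ModuleCat.{u} Q)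

/-- The linear map induced by an algebra homomorphism. -/
noncomputable def hmap {A B : Type u} [CommRing A] [Algebra k A] [CommRing B] [Algebra k B]
    (f : A →ₐ[k] B) : H.obj (.of k A) →ₗ[Q] H.obj (.of k B) :=
  (H.map (CommAlgCat.ofHom f)).hom

lemma hmap_id {A : Type u} [CommRing A] [Algebra k A] (a : H.obj (.of k A)) :
    hmap H (AlgHom.id k A) a = a := by
  change (H.map (𝟙 (CommAlgCat.of k A))).hom a = a
  rw [H.map_id]
  rfl

lemma hmap_comp {A B C : Type u} [CommRing A] [Algebra k A] [CommRing B] [Algebra k B]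
    [CommRing C] [Algebra k C] (f : A →ₐ[k] B) (g : B →ₐ[k] C) (a : H.obj (.of k A)) :
    hmap H (g.comp f) a = hmap H g (hmap H f a) := by
  change (H.map (CommAlgCat.ofHom f ≫ CommAlgCat.ofHom g)).hom a = _
  rw [H.map_comp]
  rfl

/-- The classes which come from the base field. -/
noncomputable def const (A : Type u) [CommRing A] [Algebra k A] : Submodule Q (H.obj (.of k A)) :=
  LinearMap.range (hmap H (Algebra.ofId k A))

lemma hmap_mem_const {A B : Type u} [CommRing A] [Algebra k A] [CommRing B] [Algebra k B]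
    (f : A →ₐ[k] B) {a : H.obj (.of k A)} (ha : a ∈ const H A) : hmap H f a ∈ const H B := by
  obtain ⟨c, rfl⟩ := ha
  refine ⟨c, ?_⟩
  rw [← hmap_comp]
  congr 1
  exact congrArg (hmap H) (Subsingleton.elim _ _)

/-- A homomorphism with values in the base field sends every class to a constant one. -/
lemma hmap_const_of_bot {A B : Type u} [CommRing A] [Algebra k A] [CommRing B] [Algebra k B]
    (f : A →ₐ[k] B) (φ : A →ₐ[k] k) (hf : ∀ a, f a = algebraMap k B (φ a)) (a : H.obj (.of k A)) :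
    hmap H f a ∈ const H B := by
  have h1 : f = (Algebra.ofId k B).comp φ := AlgHom.ext hf
  rw [h1, hmap_comp]
  exact ⟨_, rfl⟩

end

/-- A homomorphism with values in the base field sends every class to a constant one. -/
lemma hmap_const_of_forall {k : Type u} [Field k] {Q : Type u} [Field Q]
    (H : CommAlgCat.{u} k ⥤ ModuleCat.{u} Q) {A B : Type u} [CommRing A] [Algebra k A] [CommRing B]
    [Nontrivial B] [Algebra k B] (f : A →ₐ[k] B) (hf : ∀ a, ∃ c : k, f a = algebraMap k B c)
    (a : H.obj (.of k A)) : hmap H f a ∈ const H B := by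
  have hinj : Function.Injective (algebraMap k B) := (algebraMap k B).injective
  let e := Algebra.botEquivOfInjective hinj
  let f' : A →ₐ[k] (⊥ : Subalgebra k B) := f.codRestrict ⊥ fun x => by
    obtain ⟨c, hc⟩ := hf x
    rw [hc]
    exact Subalgebra.algebraMap_mem _ c
  refine hmap_const_of_bot H f (e.toAlgHom.comp f') (fun x => ?_) a
  obtain ⟨c, hc⟩ := hf x
  have h1 : f' x = algebraMap k _ c := Subtype.ext hc
  rw [hc, AlgHom.comp_apply, h1]
  congr 1
  exact (e.commutes c).symm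

lemma isAlgebraic_conj {k Ω : Type*} [Field k] [Field Ω] [Algebra k Ω] (τ : Ω ≃ₐ[k] Ω) {s t : Set Ω}
    (h : ∀ x ∈ s, τ x ∈ t) {b : Ω} (hb : IsAlgebraic (Algebra.adjoin k s) b) :
    IsAlgebraic (Algebra.adjoin k t) (τ b) := by
  have h1 : ∀ x ∈ Algebra.adjoin k s, τ x ∈ Algebra.adjoin k t := by
    intro x hx
    induction hx using Algebra.adjoin_induction with
    | mem x hx => exact Algebra.subset_adjoin (h x hx)
    | algebraMap r =>
      rw [AlgEquiv.commutes]
      exact Subalgebra.algebraMap_mem _ r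
    | add a b _ _ ha hb => rw [map_add]; exact Subalgebra.add_mem _ ha hb
    | mul a b _ _ ha hb => rw [map_mul]; exact Subalgebra.mul_mem _ ha hb
  let f : Algebra.adjoin k s →+* Algebra.adjoin k t :=
    { toFun := fun x => ⟨τ x, h1 x x.2⟩
      map_one' := Subtype.ext (map_one τ)
      map_mul' := fun x y => Subtype.ext (map_mul τ (x : Ω) (y : Ω))
      map_zero' := Subtype.ext (map_zero τ)
      map_add' := fun x y => Subtype.ext (map_add τ (x : Ω) (y : Ω)) }
  refine hb.ringHom_of_comp_eq f (τ : Ω →+* Ω) (fun x y hxy => ?_) ?_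
  · exact Subtype.ext (τ.injective (congrArg Subtype.val hxy))
  · ext x
    rfl

section

variable {k : Type u} [Field k] [IsAlgClosed k] {Q : Type u} [Field Q]
  {H : CommAlgCat.{u} k ⥤ ModuleCat.{u} Q}

/-- **The law.** If a class over an algebraically closed field `Ω` of infinite transcendence degree
over the algebraically closed field `k` is not defined over `k`, then as many as `trdeg(Ω/k)` of
its conjugates are linearly independent modulo the classes defined over `k`. -/
theorem exists_conjugates (hH : IsCont H) {Ω : Type u} [Field Ω] [IsAlgClosed Ω] [Algebra k Ω]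
    (hΩ : ℵ₀ ≤ Algebra.trdeg k Ω) (α : H.obj (.of k Ω)) (hα : α ∉ const H Ω) :
    ∃ (ι : Type u) (σ : ι → (Ω ≃ₐ[k] Ω)), #ι = Algebra.trdeg k Ω ∧
      LinearIndependent Q (fun i => (const H Ω).mkQ (hmap H (σ i : Ω →ₐ[k] Ω) α)) := by
  classical
  obtain ⟨A, a, hA, ha⟩ := hH.exists_fg Ω α
  obtain ⟨G, hG⟩ := hA
  obtain ⟨𝓑, X, h𝓑, hX⟩ := exists_basis_finite (k := k) G
  have hcard : #𝓑 = Algebra.trdeg k Ω := h𝓑.cardinalMk_eq_trdeg
  have hinf : Infinite 𝓑 := by
    rw [← Cardinal.aleph0_le_mk_iff, hcard]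
    exact hΩ
  obtain ⟨π, hπ⟩ := exists_perms X
  choose τ hτ using fun i => exists_aut h𝓑 (π i)
  refine ⟨𝓑, τ, hcard, ?_⟩
  -- elements of `τ i (G)` are algebraic over the `i`-th block
  have hGi : ∀ (i : 𝓑) (b : Ω), b ∈ G → IsAlgebraic
      (Algebra.adjoin k (Subtype.val '' (π i '' (X : Set 𝓑)))) (τ i b) := by
    intro i b hb
    refine isAlgebraic_conj (τ i) ?_ (hX b hb)
    rintro _ ⟨x, hx, rfl⟩
    rw [hτ i x]
    exact ⟨π i x, ⟨x, hx, rfl⟩, rfl⟩
  rw [linearIndependent_iff']
  intro s g hrel i₀ hi₀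
  by_contra hg
  apply hα
  -- the relation
  have hrel' : ∑ i ∈ s, g i • hmap H (τ i : Ω →ₐ[k] Ω) α ∈ const H Ω := by
    rw [← Submodule.ker_mkQ (const H Ω), LinearMap.mem_ker, map_sum]
    simpa only [map_smul] using hrel
  obtain ⟨γ, hγ⟩ := hrel'
  -- the subalgebra generated by the conjugates of `A`
  let GS : Finset Ω := s.biUnion fun i => G.image (τ i)
  let S : Subalgebra k Ω := Algebra.adjoin k GS
  have hAS : ∀ i ∈ s, ∀ x : A, τ i x ∈ S := by
    rintro i hi ⟨x, hx⟩
    change τ i x ∈ S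
    rw [← hG] at hx
    induction hx using Algebra.adjoin_induction with
    | mem x hx =>
      refine Algebra.subset_adjoin ?_
      exact Finset.mem_coe.2 (Finset.mem_biUnion.2 ⟨i, hi, Finset.mem_image_of_mem _ hx⟩)
    | algebraMap r =>
      rw [AlgEquiv.commutes]
      exact Subalgebra.algebraMap_mem _ r
    | add a b _ _ ha hb => rw [map_add]; exact Subalgebra.add_mem _ ha hb
    | mul a b _ _ ha hb => rw [map_mul]; exact Subalgebra.mul_mem _ ha hb
  have hf : ∀ i ∈ s, ∃ f : A →ₐ[k] S, ∀ x : A, (f x : Ω) = τ i x := fun i hi =>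
    ⟨((τ i : Ω →ₐ[k] Ω).comp A.val).codRestrict S (hAS i hi), fun x => rfl⟩
  have hne : Nonempty (A →ₐ[k] S) := ⟨(hf i₀ hi₀).choose⟩
  choose! f hf using hf
  let e : H.obj (.of k S) := ∑ i ∈ s, g i • hmap H (f i) a - hmap H (Algebra.ofId k S) γ
  have he : (H.map (CommAlgCat.ofHom S.val)).hom e = 0 := by
    change hmap H S.val e = 0
    have h1 : ∀ i ∈ s, hmap H S.val (hmap H (f i) a) = hmap H (τ i : Ω →ₐ[k] Ω) α := by
      intro i hi
      rw [← ha]
      change _ = hmap H (τ i : Ω →ₐ[k] Ω) (hmap H A.val a)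
      rw [← hmap_comp, ← hmap_comp]
      congr 1
      exact congrArg (hmap H) (AlgHom.ext fun x => hf i hi x)
    have h2 : hmap H S.val (hmap H (Algebra.ofId k S) γ) = hmap H (Algebra.ofId k Ω) γ := by
      rw [← hmap_comp]
      congr 1
    rw [map_sub, map_sum, h2, hγ, sub_eq_zero]
    refine Finset.sum_congr rfl fun i hi => ?_
    rw [map_smul, h1 i hi]
  obtain ⟨T, hST, ⟨GT, hGT⟩, hT⟩ := hH.exists_le Ω S e ⟨GS, rfl⟩ he
  -- the specialization
  obtain ⟨E, hE, hy, hE'⟩ := exists_split h𝓑 (π i₀ '' (X : Set 𝓑))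
  obtain ⟨N, φ, hN⟩ := exists_specialization (k := k) (E := E) _ hy (GT ∪ GS)
  have hTN : T ≤ N.restrictScalars k := by
    rw [← hGT]
    refine Algebra.adjoin_le fun b hb => ?_
    exact (hN b (Finset.mem_union_left _ hb)).1
  let χ : T →ₐ[k] Ω := ((IsScalarTower.toAlgHom k E Ω).comp (φ.restrictScalars k)).comp
    (Subalgebra.inclusion hTN)
  have hχ : ∀ (z : Ω) (hz : z ∈ T), χ ⟨z, hz⟩ = algebraMap E Ω (φ ⟨z, hTN hz⟩) := fun _ _ => rfl
  have hχT := congrArg (hmap H χ) hT
  change hmap H χ (hmap H (Subalgebra.inclusion hST) e) = hmap H χ 0 at hχT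
  rw [map_zero] at hχT
  -- the terms of the specialized relation
  have hval : ∀ (i : 𝓑) (hi : i ∈ s) (x : A), (χ.comp (Subalgebra.inclusion hST)).comp (f i) x =
      algebraMap E Ω (φ ⟨τ i x, hTN (hST (hAS i hi x))⟩) := by
    intro i hi x
    change χ ⟨f i x, hST (f i x).2⟩ = _
    rw [hχ]
    congr 2
    exact Subtype.ext (hf i hi x)
  have hmain : hmap H ((χ.comp (Subalgebra.inclusion hST)).comp (f i₀)) a =
      hmap H (τ i₀ : Ω →ₐ[k] Ω) α := by
    rw [← ha]
    change _ = hmap H (τ i₀ : Ω →ₐ[k] Ω) (hmap H A.val a)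
    rw [← hmap_comp]
    congr 1
    refine congrArg (hmap H) (AlgHom.ext fun x => ?_)
    rw [hval i₀ hi₀]
    change _ = τ i₀ x
    have h1 : τ i₀ x ∈ E := by
      obtain ⟨x, hx⟩ := x
      change τ i₀ x ∈ E
      rw [← hG] at hx
      induction hx using Algebra.adjoin_induction with
      | mem x hx => exact hE' _ (hGi i₀ x hx)
      | algebraMap r =>
        rw [AlgEquiv.commutes]
        exact IntermediateField.algebraMap_mem _ r
      | add a b _ _ ha hb => rw [map_add]; exact IntermediateField.add_mem _ ha hb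
      | mul a b _ _ ha hb => rw [map_mul]; exact IntermediateField.mul_mem _ ha hb
    have h2 : (⟨τ i₀ x, hTN (hST (hAS i₀ hi₀ x))⟩ : N) = algebraMap E N ⟨τ i₀ x, h1⟩ :=
      Subtype.ext rfl
    rw [h2, AlgHom.commutes]
    rfl
  have hother : ∀ i ∈ s, i ≠ i₀ →
      hmap H ((χ.comp (Subalgebra.inclusion hST)).comp (f i)) a ∈ const H Ω := by
    intro i hi hne
    refine hmap_const_of_forall H _ (fun x => ?_) a
    have h0 : ∀ (x : Ω) (hx : x ∈ Algebra.adjoin k (G : Set Ω)) (h : τ i x ∈ N),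
        ∃ c : k, algebraMap E Ω (φ ⟨τ i x, h⟩) = algebraMap k Ω c := by
      intro x hx
      induction hx using Algebra.adjoin_induction with
      | mem x hx =>
        intro h
        obtain ⟨h', h''⟩ := hN (τ i x) (Finset.mem_union_right _
          (Finset.mem_biUnion.2 ⟨i, hi, Finset.mem_image_of_mem _ hx⟩))
        obtain ⟨c, hc⟩ := h'' (by
          refine isAlgebraic_extend _ _ (fun z hz => ?_) (hGi i x hx)
          refine Algebra.adjoin_mono ?_ hz
          rintro _ ⟨w, hw, rfl⟩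
          exact ⟨⟨w, Set.disjoint_left.1 (hπ i i₀ hne) hw⟩, rfl⟩)
        refine ⟨c, ?_⟩
        rw [hc]
        exact (IsScalarTower.algebraMap_apply k E Ω c).symm
      | algebraMap r =>
        intro h
        refine ⟨r, ?_⟩
        have h2 : (⟨τ i (algebraMap k Ω r), h⟩ : N) = algebraMap E N (algebraMap k E r) := by
          apply Subtype.ext
          change τ i (algebraMap k Ω r) = algebraMap E Ω (algebraMap k E r)
          rw [AlgEquiv.commutes]
          exact IsScalarTower.algebraMap_apply k E Ω r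
        rw [h2, AlgHom.commutes]
        exact (IsScalarTower.algebraMap_apply k E Ω r).symm
      | add a b ha hb h1 h2 =>
        intro h
        have ha' : τ i a ∈ N := hTN (hST (hAS i hi ⟨a, hG ▸ ha⟩))
        have hb' : τ i b ∈ N := hTN (hST (hAS i hi ⟨b, hG ▸ hb⟩))
        obtain ⟨c, hc⟩ := h1 ha'
        obtain ⟨d, hd⟩ := h2 hb'
        refine ⟨c + d, ?_⟩
        have h3 : (⟨τ i (a + b), h⟩ : N) = ⟨τ i a, ha'⟩ + ⟨τ i b, hb'⟩ :=
          Subtype.ext (map_add (τ i) a b)
        rw [h3, map_add, map_add, hc, hd, map_add]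
      | mul a b ha hb h1 h2 =>
        intro h
        have ha' : τ i a ∈ N := hTN (hST (hAS i hi ⟨a, hG ▸ ha⟩))
        have hb' : τ i b ∈ N := hTN (hST (hAS i hi ⟨b, hG ▸ hb⟩))
        obtain ⟨c, hc⟩ := h1 ha'
        obtain ⟨d, hd⟩ := h2 hb'
        refine ⟨c * d, ?_⟩
        have h3 : (⟨τ i (a * b), h⟩ : N) = ⟨τ i a, ha'⟩ * ⟨τ i b, hb'⟩ :=
          Subtype.ext (map_mul (τ i) a b)
        rw [h3, map_mul, map_mul, hc, hd, map_mul]
    obtain ⟨c, hc⟩ := h0 x (by rw [hG]; exact x.2) (hTN (hST (hAS i hi x)))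
    exact ⟨c, by rw [hval i hi, hc]⟩
  -- conclusion
  have hsum : ∑ i ∈ s, g i • hmap H ((χ.comp (Subalgebra.inclusion hST)).comp (f i)) a ∈
      const H Ω := by
    have h1 : ∑ i ∈ s, g i • hmap H ((χ.comp (Subalgebra.inclusion hST)).comp (f i)) a =
        hmap H χ (hmap H (Subalgebra.inclusion hST) (hmap H (Algebra.ofId k S) γ)) := by
      rw [map_sub, map_sub, sub_eq_zero, map_sum, map_sum] at hχT
      rw [← hχT]
      refine Finset.sum_congr rfl fun i hi => ?_
      rw [map_smul, map_smul, hmap_comp, hmap_comp]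
    rw [h1]
    exact hmap_mem_const H _ (hmap_mem_const H _ ⟨γ, rfl⟩)
  rw [← Finset.add_sum_erase s _ hi₀, hmain] at hsum
  have hrest : ∑ i ∈ s.erase i₀,
      g i • hmap H ((χ.comp (Subalgebra.inclusion hST)).comp (f i)) a ∈ const H Ω :=
    Submodule.sum_mem _ fun i hi => Submodule.smul_mem _ _
      (hother i (Finset.mem_of_mem_erase hi) (Finset.ne_of_mem_erase hi))
  have h1 : g i₀ • hmap H (τ i₀ : Ω →ₐ[k] Ω) α ∈ const H Ω :=
    (Submodule.add_mem_iff_left _ hrest).1 hsum
  have h2 : hmap H (τ i₀ : Ω →ₐ[k] Ω) α ∈ const H Ω := (Submodule.smul_mem_iff _ hg).1 h1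
  have h3 : hmap H ((τ i₀).symm : Ω →ₐ[k] Ω) (hmap H (τ i₀ : Ω →ₐ[k] Ω) α) = α := by
    rw [← hmap_comp]
    have h4 : (((τ i₀).symm : Ω →ₐ[k] Ω).comp (τ i₀ : Ω →ₐ[k] Ω)) = AlgHom.id k Ω :=
      AlgHom.ext fun x => (τ i₀).symm_apply_apply x
    rw [h4, hmap_id]
  rw [← h3]
  exact hmap_mem_const H _ h2

end

end Pool.Agent.Zk51.RI
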