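import Pool.Agent.Zk51.RI.Law

/-!
# Continuous functors on commutative rings
-/

set_option autoImplicit false

namespace Pool.Agent.Zk51.RI

open CategoryTheory Cardinal

universe u

/-- A functor from commutative rings to vector spaces over `Q` is *continuous* if it commutes with
the directed union of the finitely generated subrings of every ring. -/
structure IsContRing {Q : Type u} [Field Q] (H : CommRingCat.{u} ⥤ ModuleCat.{u} Q) : Prop where
  exists_fg : ∀ (A : Type u) [CommRing A] (a : H.obj (.of A)),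
    ∃ (G : Finset A) (s : H.obj (.of (Subring.closure (G : Set A)))),
      (H.map (CommRingCat.ofHom (Subring.closure (G : Set A)).subtype)).hom s = a
  exists_le : ∀ (A : Type u) [CommRing A] (G : Finset A)
    (s : H.obj (.of (Subring.closure (G : Set A)))),
    (H.map (CommRingCat.ofHom (Subring.closure (G : Set A)).subtype)).hom s = 0 →
    ∃ (G' : Finset A) (h : Subring.closure (G : Set A) ≤ Subring.closure (G' : Set A)),
      (H.map (CommRingCat.ofHom (Subring.inclusion h))).hom s = 0

section

variable {Q : Type u} [Field Q] (H : CommRingCat.{u} ⥤ ModuleCat.{u} Q)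

/-- The linear map induced by a ring homomorphism. -/
noncomputable def rmap {A B : Type u} [CommRing A] [CommRing B] (f : A →+* B) :
    H.obj (.of A) →ₗ[Q] H.obj (.of B) :=
  (H.map (CommRingCat.ofHom f)).hom

lemma rmap_id {A : Type u} [CommRing A] (a : H.obj (.of A)) : rmap H (RingHom.id A) a = a := by
  change (H.map (𝟙 (CommRingCat.of A))).hom a = a
  rw [H.map_id]
  rfl

lemma rmap_comp {A B C : Type u} [CommRing A] [CommRing B] [CommRing C] (f : A →+* B)
    (g : B →+* C) (a : H.obj (.of A)) : rmap H (g.comp f) a = rmap H g (rmap H f a) := by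
  change (H.map (CommRingCat.ofHom f ≫ CommRingCat.ofHom g)).hom a = _
  rw [H.map_comp]
  rfl

lemma rmap_equiv_symm {A B : Type u} [CommRing A] [CommRing B] (e : A ≃+* B)
    (a : H.obj (.of A)) : rmap H (e.symm : B →+* A) (rmap H (e : A →+* B) a) = a := by
  rw [← rmap_comp]
  have h1 : (e.symm : B →+* A).comp (e : A →+* B) = RingHom.id A :=
    RingHom.ext fun x => e.symm_apply_apply x
  rw [h1, rmap_id]

lemma subsingleton_of_equiv {A B : Type u} [CommRing A] [CommRing B] (e : A ≃+* B)
    (h : Subsingleton (H.obj (.of A))) : Subsingleton (H.obj (.of B)) := by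
  refine ⟨fun x y => ?_⟩
  rw [← rmap_equiv_symm H e.symm x, ← rmap_equiv_symm H e.symm y]
  exact congrArg _ (Subsingleton.elim _ _)

variable {H}

lemma exists_origin (hH : IsContRing H) {A : Type u} [CommRing A] (a : H.obj (.of A)) :
    ∃ G : Finset A, ∀ T : Subring A, (G : Set A) ⊆ T → ∃ t : H.obj (.of T),
      rmap H T.subtype t = a := by
  obtain ⟨G, s, hs⟩ := hH.exists_fg A a
  refine ⟨G, fun T hT => ⟨rmap H (Subring.inclusion (Subring.closure_le.2 hT)) s, ?_⟩⟩
  rw [← rmap_comp]
  exact hs

lemma exists_factor (hH : IsContRing H) {R A : Type u} [CommRing R] [CommRing A] (f : R →+* A)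
    (r : H.obj (.of R)) (hr : rmap H f r = 0) :
    ∃ G : Finset A, ∀ (T : Subring A) (hf : ∀ x, f x ∈ T), (G : Set A) ⊆ T →
      rmap H (f.codRestrict T hf) r = 0 := by
  classical
  obtain ⟨G₀, s₀, hs₀⟩ := hH.exists_fg R r
  let G₁ : Finset A := G₀.image f
  have h1 : ∀ x ∈ Subring.closure (G₀ : Set R), f x ∈ Subring.closure (G₁ : Set A) := by
    intro x hx
    induction hx using Subring.closure_induction with
    | mem x hx => exact Subring.subset_closure (Finset.mem_coe.2 (Finset.mem_image_of_mem f hx))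
    | zero => rw [map_zero]; exact Subring.zero_mem _
    | one => rw [map_one]; exact Subring.one_mem _
    | add x y _ _ hx hy => rw [map_add]; exact Subring.add_mem _ hx hy
    | neg x _ hx => rw [map_neg]; exact Subring.neg_mem _ hx
    | mul x y _ _ hx hy => rw [map_mul]; exact Subring.mul_mem _ hx hy
  let f₁ : Subring.closure (G₀ : Set R) →+* Subring.closure (G₁ : Set A) :=
    (f.comp (Subring.closure (G₀ : Set R)).subtype).codRestrict _ fun x => h1 x x.2
  have h2 : rmap H (Subring.closure (G₁ : Set A)).subtype (rmap H f₁ s₀) = 0 := by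
    rw [← hr, ← hs₀]
    change _ = rmap H f (rmap H _ s₀)
    rw [← rmap_comp, ← rmap_comp]
    rfl
  obtain ⟨G', hle, h3⟩ := hH.exists_le A G₁ _ h2
  refine ⟨G', fun T hf hT => ?_⟩
  have h4 : Subring.closure (G' : Set A) ≤ T := Subring.closure_le.2 hT
  have h5 := congrArg (rmap H (Subring.inclusion h4)) h3
  change rmap H (Subring.inclusion h4) (rmap H (Subring.inclusion hle) (rmap H f₁ s₀)) = _ at h5
  rw [map_zero, ← rmap_comp, ← rmap_comp] at h5
  rw [← hs₀, ← h5]
  change rmap H _ (rmap H _ s₀) = _
  rw [← rmap_comp]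
  rfl

/-- Restriction of a functor on rings to algebras over a field. -/
noncomputable def restr (k : Type u) [Field k] (H : CommRingCat.{u} ⥤ ModuleCat.{u} Q) :
    CommAlgCat.{u} k ⥤ ModuleCat.{u} Q :=
  forget₂ (CommAlgCat.{u} k) CommRingCat.{u} ⋙ H

theorem isCont_restr (k : Type u) [Field k] (hH : IsContRing H) : IsCont (restr k H) := by
  classical
  refine ⟨fun A _ _ a => ?_, fun A _ _ S s hS hs => ?_⟩
  · obtain ⟨G, hG⟩ := exists_origin hH (A := A) a
    obtain ⟨t, ht⟩ := hG (Algebra.adjoin k (G : Set A)).toSubring Algebra.subset_adjoin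
    exact ⟨Algebra.adjoin k (G : Set A), t, ⟨G, rfl⟩, ht⟩
  · obtain ⟨GS, hGS⟩ := hS
    obtain ⟨G, hG⟩ := exists_factor hH (R := S) (A := A) (S.val : S →+* A) s hs
    have h1 : S ≤ Algebra.adjoin k ((GS ∪ G : Finset A) : Set A) := by
      rw [← hGS]
      exact Algebra.adjoin_mono (by simp)
    refine ⟨Algebra.adjoin k ((GS ∪ G : Finset A) : Set A), h1, ⟨_, rfl⟩, ?_⟩
    have h2 := hG (Algebra.adjoin k ((GS ∪ G : Finset A) : Set A)).toSubring (fun x => h1 x.2)
      (Set.Subset.trans (by simp) Algebra.subset_adjoin)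
    exact h2

end

end Pool.Agent.Zk51.RI
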