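import Mathlib

/-!
# Specialization of subalgebras of an algebraically closed field
-/

set_option autoImplicit false

open Polynomial

namespace Pool.Agent.Zk51.RI

universe u

section Int

variable {E L N : Type*} [Field E] [IsAlgClosed E] [CommRing L] [CommRing N] [Algebra E L]
  [Algebra L N] [Algebra E N] [IsScalarTower E L N]

/-- Homomorphisms to an algebraically closed field extend to integral extensions. -/
theorem exists_extension [Algebra.IsIntegral L N] (hinj : Function.Injective (algebraMap L N))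
    (ψ : L →ₐ[E] E) : ∃ φ : N →ₐ[E] E, ∀ l : L, φ (algebraMap L N l) = ψ l := by
  have hmax : (RingHom.ker ψ.toRingHom).IsMaximal :=
    RingHom.ker_isMaximal_of_surjective _ fun e => ⟨algebraMap E L e, by simp⟩
  have hker : RingHom.ker (algebraMap L N) ≤ RingHom.ker ψ.toRingHom := by
    rw [(RingHom.injective_iff_ker_eq_bot _).1 hinj]
    exact bot_le
  obtain ⟨Q, hQ, hcomap⟩ := Ideal.exists_ideal_over_maximal_of_isIntegral (S := N)
    (RingHom.ker ψ.toRingHom) hker
  have hQ' : Q.IsPrime := hQ.isPrime
  -- the quotient is integral over `E`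
  have hl : ∀ l : L, Ideal.Quotient.mk Q (algebraMap L N l) =
      algebraMap E (N ⧸ Q) (ψ l) := by
    intro l
    have h1 : l - algebraMap E L (ψ l) ∈ Q.comap (algebraMap L N) := by
      rw [hcomap, RingHom.mem_ker]
      change ψ (l - algebraMap E L (ψ l)) = 0
      rw [map_sub, AlgHom.commutes]
      simp
    have h2 : algebraMap L N l - algebraMap E N (ψ l) ∈ Q := by
      rw [Ideal.mem_comap, map_sub, ← IsScalarTower.algebraMap_apply] at h1
      exact h1
    have h3 := (Ideal.Quotient.eq (I := Q)).2 h2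
    rw [h3]
    rfl
  have hint : Algebra.IsIntegral E (N ⧸ Q) := by
    refine ⟨fun x => ?_⟩
    obtain ⟨n, rfl⟩ := Ideal.Quotient.mk_surjective x
    have h1 : IsIntegral L n := Algebra.IsIntegral.isIntegral n
    exact IsIntegral.map_of_comp_eq ψ.toRingHom (Ideal.Quotient.mk Q) (by
      ext l
      exact (hl l).symm) h1
  have hbij : Function.Bijective (algebraMap E (N ⧸ Q)) :=
    IsAlgClosed.algebraMap_bijective_of_isIntegral
  let e : E ≃ₐ[E] (N ⧸ Q) := AlgEquiv.ofBijective (Algebra.ofId E (N ⧸ Q)) hbij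
  refine ⟨e.symm.toAlgHom.comp (Ideal.Quotient.mkₐ E Q), fun l => ?_⟩
  have h1 : (Ideal.Quotient.mkₐ E Q) (algebraMap L N l) = e (ψ l) := hl l
  change e.symm ((Ideal.Quotient.mkₐ E Q) (algebraMap L N l)) = ψ l
  rw [h1, AlgEquiv.symm_apply_apply]

end Int

section Main

variable {E Ω : Type*} [Field E] [Field Ω] [Algebra E Ω] [IsAlgClosed E]

/-- Extension of a homomorphism from a subalgebra to finitely many algebraic elements, away from a
denominator. -/
theorem exists_extension_of_algebraic {R : Subalgebra E Ω} (ψ : R →ₐ[E] E) {d : R} (hd : ψ d ≠ 0) :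
    ∃ (N : Subalgebra E Ω) (φ : N →ₐ[E] E) (h : R ≤ N), (∀ r : R, φ ⟨r, h r.2⟩ = ψ r) ∧
      ∀ b : Ω, (∃ c : R, c ∣ d ∧ IsIntegral R ((c : Ω) * b)) → b ∈ N := by
  have hd0 : d ≠ 0 := by
    rintro rfl
    exact hd (map_zero ψ)
  have hd0' : (d : Ω) ≠ 0 := fun h => hd0 (Subtype.ext h)
  -- the localization
  let L := Localization.Away d
  have hu : IsUnit (algebraMap R Ω d) := isUnit_iff_ne_zero.2 hd0'
  let g : L →+* Ω := IsLocalization.Away.lift (S := L) d (g := algebraMap R Ω) hu
  have hg : ∀ r : R, g (algebraMap R L r) = r := fun r => by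
    rw [IsLocalization.Away.lift_eq]
    rfl
  have hginj : Function.Injective g := by
    rw [injective_iff_map_eq_zero]
    intro x hx
    obtain ⟨n, r, h⟩ := IsLocalization.Away.surj d x
    have h1 := congrArg g h
    rw [map_mul, hx, zero_mul, hg] at h1
    have h2 : r = 0 := Subtype.ext h1.symm
    rw [h2, map_zero] at h
    have h3 : IsUnit ((algebraMap R L d) ^ n) := (IsLocalization.Away.algebraMap_isUnit d).pow n
    exact (IsUnit.mul_left_eq_zero h3).1 h
  let _ : Algebra L Ω := g.toAlgebra
  have hLΩ : algebraMap L Ω = g := rfl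
  have tower : IsScalarTower R L Ω := IsScalarTower.of_algebraMap_eq fun r => (hg r).symm
  have tower' : IsScalarTower E L Ω := by
    refine IsScalarTower.of_algebraMap_eq fun e => ?_
    rw [IsScalarTower.algebraMap_apply E R L, hLΩ, hg]
    rfl
  -- the homomorphism on the localization
  have hψd : IsUnit ((ψ : R →+* E) d) := isUnit_iff_ne_zero.2 hd
  let ψL : L →ₐ[E] E :=
    { IsLocalization.Away.lift (S := L) d (g := (ψ : R →+* E)) hψd with
      commutes' := fun e => by
        change IsLocalization.Away.lift (S := L) d (g := (ψ : R →+* E)) hψd (algebraMap E L e) = e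
        rw [IsScalarTower.algebraMap_apply E R L, IsLocalization.Away.lift_eq]
        exact ψ.commutes e }
  have hψL : ∀ r : R, ψL (algebraMap R L r) = ψ r := fun r => by
    change IsLocalization.Away.lift (S := L) d (g := (ψ : R →+* E)) hψd (algebraMap R L r) = ψ r
    rw [IsLocalization.Away.lift_eq]
    rfl
  -- the integral closure
  let N' := integralClosure L Ω
  have tower'' : IsScalarTower E L N' := by
    refine IsScalarTower.of_algebraMap_eq fun e => ?_
    apply Subtype.ext
    change algebraMap E Ω e = algebraMap L Ω (algebraMap E L e)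
    exact IsScalarTower.algebraMap_apply E L Ω e
  have hinj : Function.Injective (algebraMap L N') := fun a b h => hginj (congrArg Subtype.val h)
  obtain ⟨φ, hφ⟩ := exists_extension (N := N') hinj ψL
  let N : Subalgebra E Ω := N'.restrictScalars E
  let φ' : N →ₐ[E] E := { (φ : N' →+* E) with commutes' := fun e => φ.commutes e }
  have hRN : R ≤ N := by
    intro r hr
    have h1 : algebraMap L Ω (algebraMap R L ⟨r, hr⟩) = r := hg ⟨r, hr⟩
    change r ∈ integralClosure L Ω
    rw [← h1]
    exact (integralClosure L Ω).algebraMap_mem _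
  refine ⟨N, φ', hRN, fun r => ?_, ?_⟩
  · have h1 : (⟨r, hRN r.2⟩ : N') = algebraMap L N' (algebraMap R L r) := by
      apply Subtype.ext
      exact (hg r).symm
    change φ (⟨r, hRN r.2⟩ : N') = ψ r
    rw [h1, hφ, hψL]
  · rintro b ⟨c, ⟨c', hc⟩, hb⟩
    change b ∈ integralClosure L Ω
    -- `b` is the product of `c b` with the inverse of `c`
    have hc0 : (c : Ω) ≠ 0 := by
      intro h
      apply hd0'
      rw [hc]
      change (c : Ω) * c' = 0
      rw [h, zero_mul]
    have h1 : IsIntegral L ((c : Ω) * b) := hb.tower_top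
    have h2 : (c : Ω)⁻¹ ∈ integralClosure L Ω := by
      have h3 : (c : Ω)⁻¹ = algebraMap L Ω (algebraMap R L c' *
          IsLocalization.Away.invSelf d) := by
        have h4 : g (algebraMap R L d * IsLocalization.Away.invSelf d) = 1 := by
          rw [IsLocalization.Away.mul_invSelf, map_one]
        rw [map_mul, hg] at h4
        have h5 : g (IsLocalization.Away.invSelf d) = (d : Ω)⁻¹ := eq_inv_of_mul_eq_one_right h4
        rw [hLΩ, map_mul, hg, h5, hc]
        change (c : Ω)⁻¹ = (c' : Ω) * ((c : Ω) * c')⁻¹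
        have hc'0 : (c' : Ω) ≠ 0 := by
          intro h
          apply hd0'
          rw [hc]
          change (c : Ω) * c' = 0
          rw [h, mul_zero]
        field_simp
      rw [h3]
      exact (integralClosure L Ω).algebraMap_mem _
    have h3 : b = (c : Ω)⁻¹ * ((c : Ω) * b) := by
      field_simp
    rw [h3]
    exact (integralClosure L Ω).mul_mem h2 h1

end Main

end Pool.Agent.Zk51.RI

namespace Pool.Agent.Zk51.RI

/-- Integral elements over an algebraically closed field. -/
lemma mem_range_of_isIntegral {k E : Type*} [Field k] [IsAlgClosed k] [Field E] [Algebra k E]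
    {z : E} (hz : IsIntegral k z) : ∃ a : k, algebraMap k E a = z := by
  have h1 : Algebra.IsIntegral k (integralClosure k E) := inferInstance
  obtain ⟨a, ha⟩ := (IsAlgClosed.algebraMap_bijective_of_isIntegral (k := k)
    (K := integralClosure k E)).2 ⟨z, hz⟩
  exact ⟨a, congrArg Subtype.val ha⟩

lemma aevalEquiv_symm_X {R A ι : Type*} [CommRing R] [CommRing A] [Algebra R A] {x : ι → A}
    (hx : AlgebraicIndependent R x) (i : ι) (h : x i ∈ Algebra.adjoin R (Set.range x)) :
    hx.aevalEquiv.symm ⟨x i, h⟩ = MvPolynomial.X i := by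
  have h1 : hx.aevalEquiv (MvPolynomial.X i) = ⟨x i, h⟩ := by
    apply Subtype.ext
    have h2 := hx.algebraMap_aevalEquiv (MvPolynomial.X i)
    rw [MvPolynomial.aeval_X] at h2
    exact h2
  rw [← h1, AlgEquiv.symm_apply_apply]

/-- **Specialization.** Finitely many elements `B` of the field `Ω` with transcendence basis `y` over
the algebraically closed field `E` can be specialized over `E` in such a way that the elements
of `B` which are algebraic over `k(y)`, where `k` is an algebraically closed subfield of `E`,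
specialize to elements of `k`. -/
theorem exists_specialization {k E Ω ι : Type*} [Field k] [Field E] [Field Ω] [Algebra k E]
    [Algebra E Ω] [Algebra k Ω] [IsScalarTower k E Ω] [IsAlgClosed k] [IsAlgClosed E]
    (y : ι → Ω) (hy : IsTranscendenceBasis E y) (B : Finset Ω) :
    ∃ (N : Subalgebra E Ω) (φ : N →ₐ[E] E), ∀ b ∈ B, ∃ h : b ∈ N,
      (IsAlgebraic (Algebra.adjoin k (Set.range y)) b → ∃ a : k, φ ⟨b, h⟩ = algebraMap k E a) := by
  classical
  set R := Algebra.adjoin E (Set.range y) with hR
  set Q := Algebra.adjoin k (Set.range y) with hQ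
  have hQR : ∀ q : Ω, q ∈ Q → q ∈ R := by
    intro q hq
    have h1 : Q ≤ R.restrictScalars k := Algebra.adjoin_le fun x hx => Algebra.subset_adjoin hx
    exact h1 hq
  -- denominators
  have hc : ∀ b : Ω, ∃ c : R, c ≠ 0 ∧ IsIntegral R ((c : Ω) * b) := by
    intro b
    have h1 := hy.isAlgebraic
    obtain ⟨c, hc, hc'⟩ := (Algebra.IsAlgebraic.isAlgebraic (R := R) b).exists_integral_multiple
    exact ⟨c, hc, by rwa [Algebra.smul_def] at hc'⟩
  choose c hc0 hci using hc
  have hq : ∀ b : Ω, ∃ q : Q, q ≠ 0 ∧ (IsAlgebraic Q b → IsIntegral Q ((q : Ω) * b)) := by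
    intro b
    by_cases hb : IsAlgebraic Q b
    · obtain ⟨q, hq, hq'⟩ := hb.exists_integral_multiple
      exact ⟨q, hq, fun _ => by rwa [Algebra.smul_def] at hq'⟩
    · exact ⟨1, one_ne_zero, fun h => absurd h hb⟩
  choose q hq0 hqi using hq
  let q' : Ω → R := fun b => ⟨q b, hQR _ (q b).2⟩
  have hq'0 : ∀ b, q' b ≠ 0 := fun b h => by
    have h1 : ((q b : Q) : Ω) = 0 := congrArg (fun r : R => (r : Ω)) h
    exact hq0 b (Subtype.ext h1)
  let d : R := ∏ b ∈ B, (c b * q' b)
  have hd0 : d ≠ 0 := Finset.prod_ne_zero_iff.2 fun b _ => mul_ne_zero (hc0 b) (hq'0 b)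
  -- the values
  have hinf : ∀ _ : ι, (Set.range (algebraMap k E)).Infinite := fun _ =>
    Set.infinite_range_of_injective (algebraMap k E).injective
  have hP : hy.1.aevalEquiv.symm d ≠ 0 := fun h => hd0 ((map_eq_zero_iff _
    hy.1.aevalEquiv.symm.injective).1 h)
  obtain ⟨v, hv, hvd⟩ : ∃ v ∈ Set.pi Set.univ (fun _ : ι => Set.range (algebraMap k E)),
      MvPolynomial.eval v (hy.1.aevalEquiv.symm d) ≠ 0 := by
    by_contra hcon
    push Not at hcon
    exact hP (MvPolynomial.funext_set _ hinf fun x hx => by rw [hcon x hx, map_zero])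
  let ψ : R →ₐ[E] E := (MvPolynomial.aeval v).comp hy.1.aevalEquiv.symm.toAlgHom
  have hψd : ψ d ≠ 0 := by
    change MvPolynomial.aeval v (hy.1.aevalEquiv.symm d) ≠ 0
    rwa [MvPolynomial.aeval_eq_eval]
  -- values in `k`
  have hψk : ∀ (x : Ω) (hx : x ∈ Q), ∃ a : k, ψ ⟨x, hQR x hx⟩ = algebraMap k E a := by
    intro x hx
    induction hx using Algebra.adjoin_induction with
    | mem x hx =>
      obtain ⟨i, rfl⟩ := hx
      obtain ⟨a, ha⟩ := hv i (Set.mem_univ i)
      refine ⟨a, ?_⟩
      have h1 := aevalEquiv_symm_X hy.1 i (hQR _ (Algebra.subset_adjoin ⟨i, rfl⟩))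
      have h2 : ψ ⟨y i, hQR _ (Algebra.subset_adjoin ⟨i, rfl⟩)⟩ =
        MvPolynomial.aeval v (hy.1.aevalEquiv.symm
          ⟨y i, hQR _ (Algebra.subset_adjoin ⟨i, rfl⟩)⟩) := rfl
      rw [h2, h1, MvPolynomial.aeval_X, ha]
    | algebraMap r =>
      refine ⟨r, ?_⟩
      have h1 : (⟨algebraMap k Ω r, hQR _ (Q.algebraMap_mem r)⟩ : R) =
          algebraMap E R (algebraMap k E r) := by
        apply Subtype.ext
        change algebraMap k Ω r = algebraMap E Ω (algebraMap k E r)
        exact IsScalarTower.algebraMap_apply k E Ω r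
      rw [h1, AlgHom.commutes]
      rfl
    | add x y hx hy h1 h2 =>
      obtain ⟨a, ha⟩ := h1
      obtain ⟨b, hb⟩ := h2
      exact ⟨a + b, by rw [map_add, ← ha, ← hb, ← map_add]; rfl⟩
    | mul x y hx hy h1 h2 =>
      obtain ⟨a, ha⟩ := h1
      obtain ⟨b, hb⟩ := h2
      exact ⟨a * b, by rw [map_mul, ← ha, ← hb, ← map_mul]; rfl⟩
  obtain ⟨N, φ, hRN, hφ, hN⟩ := exists_extension_of_algebraic ψ hψd
  refine ⟨N, φ, fun b hb => ?_⟩
  have hbN : b ∈ N := hN b ⟨c b, (Dvd.intro _ rfl).trans (Finset.dvd_prod_of_mem _ hb), hci b⟩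
  refine ⟨hbN, fun hbQ => ?_⟩
  -- the multiple which is integral over `Q`
  obtain ⟨a, ha⟩ := hψk (q b) (q b).2
  have ha0 : a ≠ 0 := by
    rintro rfl
    rw [map_zero] at ha
    apply hψd
    have h1 : q' b ∣ d := (Dvd.intro_left _ rfl).trans (Finset.dvd_prod_of_mem _ hb)
    obtain ⟨e, he⟩ := h1
    rw [he, map_mul]
    have h2 : ψ (q' b) = 0 := ha
    rw [h2, zero_mul]
  have hz := hqi b hbQ
  have hzN : (q b : Ω) * b ∈ N := N.mul_mem (hRN (hQR _ (q b).2)) hbN
  have hzint : IsIntegral k (φ ⟨(q b : Ω) * b, hzN⟩) := by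
    obtain ⟨p, hp, hroot⟩ := hz
    let S : Subalgebra k E := (Algebra.ofId k E).range
    have hSint : Algebra.IsIntegral k S := by
      refine ⟨fun s => ?_⟩
      obtain ⟨s, t, rfl⟩ := s
      have h1 : (⟨(Algebra.ofId k E).toRingHom t, ⟨t, rfl⟩⟩ : S) = algebraMap k S t := rfl
      exact h1 ▸ isIntegral_algebraMap
    let f0 : Q →+* E := (φ : N →+* E).comp
      { toFun := fun x => ⟨x, hRN (hQR _ x.2)⟩
        map_one' := rfl
        map_mul' := fun _ _ => rfl
        map_zero' := rfl
        map_add' := fun _ _ => rfl }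
    have hf0 : ∀ x : Q, f0 x ∈ S := fun x => by
      obtain ⟨t, ht⟩ := hψk x x.2
      refine ⟨t, ?_⟩
      have h1 : f0 x = ψ ⟨x, hQR x x.2⟩ := hφ ⟨x, hQR x x.2⟩
      rw [h1, ht]
      rfl
    let f : Q →+* S := f0.codRestrict S.toSubring hf0
    have h1 : IsIntegral S (φ ⟨(q b : Ω) * b, hzN⟩) := by
      refine ⟨p.map f, hp.map f, ?_⟩
      rw [Polynomial.eval₂_map]
      have h2 : (algebraMap S E).comp f = f0 := rfl
      rw [h2]
      have h3 : Polynomial.eval₂ (({ toFun := fun x => ⟨x, hRN (hQR _ x.2)⟩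
                                     map_one' := rfl
                                     map_mul' := fun _ _ => rfl
                                     map_zero' := rfl
                                     map_add' := fun _ _ => rfl } : Q →+* N))
          ⟨(q b : Ω) * b, hzN⟩ p = 0 := by
        apply Subtype.ext
        have h4 := Polynomial.hom_eval₂ p (({ toFun := fun x => ⟨x, hRN (hQR _ x.2)⟩
                                              map_one' := rfl
                                              map_mul' := fun _ _ => rfl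
                                              map_zero' := rfl
                                              map_add' := fun _ _ => rfl } : Q →+* N))
          (N.val : N →+* Ω) ⟨(q b : Ω) * b, hzN⟩
        exact h4.trans hroot
      have h5 := Polynomial.hom_eval₂ p (({ toFun := fun x => ⟨x, hRN (hQR _ x.2)⟩
                                            map_one' := rfl
                                            map_mul' := fun _ _ => rfl
                                            map_zero' := rfl
                                            map_add' := fun _ _ => rfl } : Q →+* N))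
        (φ : N →+* E) ⟨(q b : Ω) * b, hzN⟩
      rw [h3, map_zero] at h5
      exact h5.symm
    exact isIntegral_trans _ h1
  obtain ⟨t, ht⟩ := mem_range_of_isIntegral hzint
  refine ⟨t / a, ?_⟩
  have h1 : φ ⟨(q b : Ω) * b, hzN⟩ = algebraMap k E a * φ ⟨b, hbN⟩ := by
    have h2 : (⟨(q b : Ω) * b, hzN⟩ : N) = ⟨q b, hRN (hQR _ (q b).2)⟩ * ⟨b, hbN⟩ := rfl
    have h3 : φ ⟨q b, hRN (hQR _ (q b).2)⟩ = algebraMap k E a := by
      rw [← ha]
      exact hφ ⟨q b, hQR _ (q b).2⟩
    rw [h2, map_mul, h3]
  have ha0' : algebraMap k E a ≠ 0 := fun h => ha0 ((map_eq_zero _).1 h)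
  rw [map_div₀, ht, h1]
  field_simp

end Pool.Agent.Zk51.RI
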